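import Pool.Agent.U798.MN.D3

/-! The sum of the series at irrational points. -/

set_option autoImplicit false

open Finset MeasureTheory Filter Topology
open Pool.Agent.H807R2.Dav
open Pool.Agent.H373R2.T7 (muR muR_abs orth)
open scoped Real

namespace Pool.Agent.U798.MN

variable {b : ℕ}

lemma continuousAt_saw {t : ℝ} (ht : ∀ m : ℤ, t ≠ m) : ContinuousAt saw t := by
  have h1 : ∀ᶠ z in 𝓝 t, saw z = z - (⌊t⌋ : ℝ) - 1 / 2 := by
    have h2 : Set.Ioo (⌊t⌋ : ℝ) (⌊t⌋ + 1) ∈ 𝓝 t := by
      apply Ioo_mem_nhds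
      · exact lt_of_le_of_ne (Int.floor_le t) (fun h => ht _ h.symm)
      · exact Int.lt_floor_add_one t
    filter_upwards [h2] with z hz
    have h3 : ⌊z⌋ = ⌊t⌋ := Int.floor_eq_iff.2 ⟨hz.1.le, hz.2⟩
    unfold saw Int.fract
    rw [h3]
  have h4 : ContinuousAt (fun z : ℝ => z - (⌊t⌋ : ℝ) - 1 / 2) t := by fun_prop
  exact h4.congr (h1.mono fun z hz => hz.symm)

lemma continuousAt_ser (χ : DirichletCharacter ℂ b) (K : ℕ) {y : ℝ} (hy : Irrational y) :
    ContinuousAt (ser χ K) y := by
  unfold ser term dig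
  apply tendsto_finsetSum
  intro k hk
  rw [mem_Icc] at hk
  apply Tendsto.div_const
  apply Tendsto.const_mul
  apply tendsto_finsetSum
  intro j _
  apply Tendsto.const_mul
  have h1 : ContinuousAt saw (k * y + j / b) := by
    apply continuousAt_saw
    intro m hm
    have h2 : Irrational ((k : ℝ) * y + j / b) := by
      have h3 : Irrational ((k : ℝ) * y) := hy.natCast_mul (by omega)
      have h4 := h3.add_ratCast ((j : ℚ) / b)
      push_cast at h4
      exact h4
    exact h2.ne_int m hm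
  have h5 : ContinuousAt (fun u : ℝ => (k : ℝ) * u + j / b) y := by fun_prop
  have h6 : ContinuousAt (fun u : ℝ => saw (k * u + j / b)) y := ContinuousAt.comp (g := saw) h1 h5
  exact (Complex.continuous_ofReal.continuousAt.comp h6 : _)

lemma dig_add_int (χ : DirichletCharacter ℂ b) (t : ℝ) (m : ℤ) : dig χ (t + m) = dig χ t := by
  unfold dig
  refine sum_congr rfl fun j _ => ?_
  rw [show t + (m : ℝ) + j / b = (t + j / b) + m by ring, saw_add_int]

lemma ser_add_int (χ : DirichletCharacter ℂ b) (K : ℕ) (y : ℝ) (m : ℤ) :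
    ser χ K (y + m) = ser χ K y := by
  unfold ser term
  refine sum_congr rfl fun k _ => ?_
  have : (k : ℝ) * (y + m) = k * y + ((k * m : ℤ) : ℝ) := by push_cast; ring
  rw [this, dig_add_int]

lemma tgt_add_int (χ : DirichletCharacter ℂ b) (y : ℝ) (m : ℤ) : tgt χ (y + m) = tgt χ y := by
  unfold tgt
  have h1 : -(y + (m : ℝ)) = -y + ((-m : ℤ) : ℝ) := by push_cast; ring
  rw [ee_add_int, h1, ee_add_int]

lemma tendsto_rate (C : ℝ) (U : ℕ) :
    Tendsto (fun K : ℕ => C / Real.log K ^ (U + 1)) atTop (𝓝 0) := by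
  have h1 : Tendsto (fun K : ℕ => Real.log K ^ (U + 1)) atTop atTop :=
    (tendsto_pow_atTop (by omega)).comp (Real.tendsto_log_atTop.comp tendsto_natCast_atTop_atTop)
  exact h1.const_div_atTop C

theorem ser_limit (hb : 1 ≤ b) (χ : DirichletCharacter ℂ b) (U : ℕ) :
    ∃ (C : ℝ) (K0 : ℕ), 0 < C ∧ 3 ≤ K0 ∧ ∀ K : ℕ, K0 ≤ K → ∀ y : ℝ, Irrational y →
      ‖tgt χ y - ser χ K y‖ ≤ C / Real.log K ^ (U + 1) := by
  obtain ⟨C, K0, hC, hK0, hc⟩ := ser_cauchy hb χ U
  refine ⟨C, K0, hC, hK0, ?_⟩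
  have hrate := tendsto_rate C U
  -- the limit
  have hcau : ∀ y : ℝ, CauchySeq (fun K => ser χ K y) := by
    intro y
    rw [Metric.cauchySeq_iff']
    intro ε hε
    obtain ⟨K1, hK1⟩ := eventually_atTop.1 (hrate.eventually_lt_const hε)
    refine ⟨max K0 K1, fun n hn => ?_⟩
    obtain ⟨d, rfl⟩ := Nat.exists_eq_add_of_le hn
    rw [dist_eq_norm]
    exact (hc _ (le_max_left _ _) d y).trans_lt (hK1 _ (le_max_right _ _))
  choose g hg using fun y => cauchySeq_tendsto_of_complete (hcau y)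
  have hgb : ∀ K : ℕ, K0 ≤ K → ∀ y : ℝ, ‖g y - ser χ K y‖ ≤ C / Real.log K ^ (U + 1) := by
    intro K hK y
    have h1 : Tendsto (fun d : ℕ => ‖ser χ (K + d) y - ser χ K y‖) atTop (𝓝 ‖g y - ser χ K y‖) := by
      apply Tendsto.norm
      apply Tendsto.sub_const
      have h2 : Tendsto (fun d : ℕ => K + d) atTop atTop := tendsto_add_atTop_nat K |>.congr
        (fun d => by rw [add_comm])
      exact (hg y).comp h2
    exact le_of_tendsto h1 (Eventually.of_forall fun d => hc K hK d y)
  have hgm : Measurable g :=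
    measurable_of_tendsto_metrizable (fun K => measurable_ser χ K) (tendsto_pi_nhds.2 hg)
  have hlog : ∀ n : ℕ, 3 ≤ n → 1 ≤ Real.log n := by
    intro n hn
    rw [Real.le_log_iff_exp_le (by exact_mod_cast (by omega : 0 < n))]
    have h2 := Real.exp_one_lt_d9
    have h3 : (3 : ℝ) ≤ n := by exact_mod_cast hn
    linarith
  have hserb : ∀ K : ℕ, ∀ y : ℝ, ‖ser χ K y‖ ≤ K * b := by
    intro K y
    unfold ser
    refine (norm_sum_le _ _).trans ?_
    calc ∑ k ∈ Icc 1 K, ‖term χ y k / (k : ℂ)‖ ≤ ∑ k ∈ Icc 1 K, (b : ℝ) := by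
          refine sum_le_sum fun k hk => ?_
          rw [mem_Icc] at hk
          have hk1 : (1 : ℝ) ≤ k := by exact_mod_cast hk.1
          rw [norm_div, Complex.norm_natCast]
          exact (div_le_self (norm_nonneg _) hk1).trans (norm_term χ y k)
      _ = K * b := by rw [sum_const, Nat.card_Icc, nsmul_eq_mul]; simp
  have hgB : ∀ y, ‖g y‖ ≤ C + K0 * b := by
    intro y
    have h1 := hgb K0 le_rfl y
    have h2 := hserb K0 y
    have h3 : C / Real.log K0 ^ (U + 1) ≤ C :=
      div_le_self hC.le (one_le_pow₀ (hlog K0 hK0))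
    have h4 : g y = (g y - ser χ K0 y) + ser χ K0 y := by ring
    rw [h4]
    refine (norm_add_le _ _).trans ?_
    linarith
  have htB : ∀ y, ‖tgt χ y‖ ≤ 2 := by
    intro y
    unfold tgt
    have h1 : ‖(1 / (2 * π * Complex.I) : ℂ)‖ ≤ 1 := by
      rw [norm_div, norm_mul, norm_mul, Complex.norm_I, norm_one, Complex.norm_real,
        Real.norm_of_nonneg Real.pi_pos.le, Complex.norm_ofNat, div_le_one (by have := Real.pi_pos; positivity)]
      have := Real.pi_gt_three
      linarith
    rw [norm_mul]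
    have h2 : ‖ee y - χ (-1) * ee (-y)‖ ≤ 2 := by
      refine (norm_sub_le _ _).trans ?_
      rw [norm_mul, norm_ee, norm_ee, mul_one]
      have := norm_chi χ (-1)
      linarith
    calc ‖(1 / (2 * π * Complex.I) : ℂ)‖ * ‖ee y - χ (-1) * ee (-y)‖ ≤ 1 * 2 :=
          mul_le_mul h1 h2 (norm_nonneg _) zero_le_one
      _ = 2 := by ring
  have htc : Continuous (tgt χ) := by
    unfold tgt
    exact continuous_const.mul (continuous_ee.sub (continuous_const.mul (continuous_ee.comp continuous_neg)))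
  -- Fourier coefficients
  have hfour : ∀ n : ℤ, ∫ x in (0 : ℝ)..1, ee (-(n * x)) * (g x - tgt χ x) = 0 := by
    intro n
    have hii : ∀ f : ℝ → ℂ, Measurable f → ∀ B : ℝ, (∀ x, ‖f x‖ ≤ B) →
        IntervalIntegrable (fun x : ℝ => ee (-(n * x)) * f x) volume 0 1 := by
      intro f hf B hB
      refine ii_bdd _ ?_ B (fun x => ?_) _ _
      · exact (continuous_ee.measurable.comp (by fun_prop)).mul hf
      · rw [norm_mul, norm_ee, one_mul]
        exact hB x
    have hkey : ∀ K : ℕ, K0 ≤ K → n.natAbs ≤ K →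
        ‖∫ x in (0 : ℝ)..1, ee (-(n * x)) * (g x - tgt χ x)‖ ≤ C / Real.log K ^ (U + 1) := by
      intro K hK hnK
      have e : ∫ x in (0 : ℝ)..1, ee (-(n * x)) * (g x - tgt χ x) =
          ∫ x in (0 : ℝ)..1, ee (-(n * x)) * (g x - ser χ K x) := by
        have e1 : ∀ x : ℝ, ee (-(n * x)) * (g x - tgt χ x) =
            ee (-(n * x)) * g x - ee (-(n * x)) * tgt χ x := fun x => by ring
        have e2 : ∀ x : ℝ, ee (-(n * x)) * (g x - ser χ K x) =
            ee (-(n * x)) * g x - ee (-(n * x)) * ser χ K x := fun x => by ring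
        simp_rw [e1, e2]
        rw [intervalIntegral.integral_sub (hii g hgm _ hgB) (hii _ htc.measurable _ htB),
          intervalIntegral.integral_sub (hii g hgm _ hgB) (hii _ (measurable_ser χ K) _ (hserb K)),
          int_tgt, int_ser hb χ n K hnK]
      rw [e]
      have h1 := intervalIntegral.norm_integral_le_of_norm_le_const (a := (0 : ℝ)) (b := 1)
        (f := fun x => ee (-(n * x)) * (g x - ser χ K x)) (C := C / Real.log K ^ (U + 1)) (by
          intro x _
          rw [norm_mul, norm_ee, one_mul]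
          exact hgb K hK x)
      simpa using h1
    have h1 : ‖∫ x in (0 : ℝ)..1, ee (-(n * x)) * (g x - tgt χ x)‖ ≤ 0 := by
      apply ge_of_tendsto hrate
      filter_upwards [eventually_ge_atTop (max K0 n.natAbs)] with K hK
      exact hkey K ((le_max_left _ _).trans hK) ((le_max_right _ _).trans hK)
    exact norm_le_zero_iff.1 h1
  have hae := fourier_unique (fun x => g x - tgt χ x) (hgm.sub htc.measurable) (C + K0 * b + 2)
    (fun x => (norm_sub_le _ _).trans (add_le_add (hgB x) (htB x))) hfour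
  -- continuity
  have hcont : ∀ y : ℝ, Irrational y → ContinuousAt g y := by
    intro y hy
    apply continuousAt_of_locally_uniform_approx_of_continuousAt
    intro u hu
    obtain ⟨ε, hε, hu2⟩ := Metric.mem_uniformity_dist.1 hu
    obtain ⟨K1, hK1⟩ := eventually_atTop.1 (hrate.eventually_lt_const hε)
    refine ⟨Set.univ, univ_mem, ser χ (max K0 K1), continuousAt_ser χ _ hy, fun z _ => ?_⟩
    apply hu2
    rw [dist_eq_norm]
    exact (hgb _ (le_max_left _ _) z).trans_lt (hK1 _ (le_max_right _ _))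
  have hzero : ∀ y : ℝ, Irrational y → 0 < y → y < 1 → g y = tgt χ y := by
    intro y hy h0 h1
    by_contra hne
    have hG : ContinuousAt (fun x => g x - tgt χ x) y := (hcont y hy).sub htc.continuousAt
    have h2 : ∀ᶠ x in 𝓝 y, g x - tgt χ x ≠ 0 := hG.eventually_ne (sub_ne_zero.2 hne)
    have h3 : ∀ᶠ x in 𝓝 y, x ∈ Set.Ioo (0 : ℝ) 1 := Ioo_mem_nhds h0 h1
    obtain ⟨V, hV, hVo, hyV⟩ := mem_nhds_iff.1 (h2.and h3)
    have h4 : volume V = 0 := by
      rw [ae_restrict_iff' measurableSet_Ioc] at hae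
      apply measure_mono_null _ (ae_iff.1 hae)
      intro x hx
      have h5 := hV hx
      simp only [Set.mem_ofPred_eq, Classical.not_imp]
      exact ⟨⟨h5.2.1, h5.2.2.le⟩, h5.1⟩
    exact (hVo.measure_pos volume ⟨y, hyV⟩).ne' h4
  intro K hK y hy
  set m := ⌊y⌋ with hm
  set z := Int.fract y with hz
  have hyz : y = z + (m : ℝ) := by rw [hz, hm]; exact (Int.fract_add_floor y).symm
  have hzi : Irrational z := by
    have : z = y - (m : ℝ) := by rw [hyz]; ring
    rw [this]
    exact hy.sub_intCast m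
  have hz0 : 0 < z := lt_of_le_of_ne (Int.fract_nonneg y) (fun h => hzi.ne_zero h.symm)
  have hz1 : z < 1 := Int.fract_lt_one y
  rw [hyz, tgt_add_int, ser_add_int, ← hzero z hzi hz0 hz1]
  exact hgb K hK z

end Pool.Agent.U798.MN
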