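import Mathlib
import Pool.Agent.H419R2.Saw
import Pool.Agent.H807R2.Dav1

/-! Sawtooth function: variation along arithmetic progressions and distance to the Fourier sums. -/

set_option autoImplicit false

open Finset
open Pool.Agent.H807R2.Dav

namespace Pool.Agent.U798.MN

/-- the sawtooth function `{t} - 1/2` -/
noncomputable def saw (t : ℝ) : ℝ := Int.fract t - 1 / 2

lemma abs_saw_le (t : ℝ) : |saw t| ≤ 1 / 2 := by
  unfold saw
  rw [abs_le]
  have h1 := Int.fract_nonneg t
  have h2 := (Int.fract_lt_one t).le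
  constructor <;> linarith

lemma saw_add_int (t : ℝ) (m : ℤ) : saw (t + m) = saw t := by
  unfold saw; rw [Int.fract_add_intCast]

/-- Abel's inequality with the total variation -/
lemma abel_var (a h : ℕ → ℝ) (N : ℕ) (G : ℝ)
    (hG : ∀ y : ℕ, y ≤ N → |∑ n ∈ Icc 1 y, a n| ≤ G) :
    |∑ n ∈ Icc 1 N, a n * h n| ≤ G * (|h N| + ∑ n ∈ range N, |h (n + 1) - h n|) := by
  have key : ∀ y : ℕ, y ≤ N → |∑ n ∈ Icc 1 y, a n * h n - (∑ n ∈ Icc 1 y, a n) * h y| ≤
      G * ∑ n ∈ range y, |h (n + 1) - h n| := by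
    intro y
    induction y with
    | zero => intro _; simp
    | succ y ih =>
      intro hy
      have h1 := ih (by omega)
      rw [sum_Icc_succ_top (by omega), sum_Icc_succ_top (by omega), sum_range_succ]
      have h3 : (∑ n ∈ Icc 1 y, a n * h n + a (y + 1) * h (y + 1)) -
          (∑ n ∈ Icc 1 y, a n + a (y + 1)) * h (y + 1) =
          (∑ n ∈ Icc 1 y, a n * h n - (∑ n ∈ Icc 1 y, a n) * h y) -
          (∑ n ∈ Icc 1 y, a n) * (h (y + 1) - h y) := by ring
      rw [h3]
      refine (abs_sub _ _).trans ?_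
      have h4 : |(∑ n ∈ Icc 1 y, a n) * (h (y + 1) - h y)| ≤ G * |h (y + 1) - h y| := by
        rw [abs_mul]
        exact mul_le_mul_of_nonneg_right (hG y (by omega)) (abs_nonneg _)
      rw [mul_add]
      linarith
  have h1 := key N le_rfl
  have h2 : ∑ n ∈ Icc 1 N, a n * h n = (∑ n ∈ Icc 1 N, a n * h n -
      (∑ n ∈ Icc 1 N, a n) * h N) + (∑ n ∈ Icc 1 N, a n) * h N := by ring
  rw [h2]
  refine (abs_add_le _ _).trans ?_
  have h3 : |(∑ n ∈ Icc 1 N, a n) * h N| ≤ G * |h N| := by
    rw [abs_mul]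
    exact mul_le_mul_of_nonneg_right (hG N le_rfl) (abs_nonneg _)
  rw [mul_add]
  linarith

/-- the total variation of a monotone integer sequence -/
lemma floor_var (β θ : ℝ) (N : ℕ) :
    ∑ n ∈ range N, |(⌊((n + 1 : ℕ) : ℝ) * β + θ⌋ : ℝ) - (⌊(n : ℝ) * β + θ⌋ : ℝ)| ≤ N * |β| + 1 := by
  have tele : ∑ n ∈ range N, ((⌊((n + 1 : ℕ) : ℝ) * β + θ⌋ : ℝ) - (⌊(n : ℝ) * β + θ⌋ : ℝ)) =
      (⌊(N : ℝ) * β + θ⌋ : ℝ) - (⌊((0 : ℕ) : ℝ) * β + θ⌋ : ℝ) :=
    sum_range_sub (fun n : ℕ => (⌊(n : ℝ) * β + θ⌋ : ℝ)) N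
  have f1 := Int.floor_le ((N : ℝ) * β + θ)
  have f2 := Int.lt_floor_add_one ((N : ℝ) * β + θ)
  have f3 := Int.floor_le (((0 : ℕ) : ℝ) * β + θ)
  have f4 := Int.lt_floor_add_one (((0 : ℕ) : ℝ) * β + θ)
  simp only [Nat.cast_zero, zero_mul, zero_add] at f3 f4
  rcases le_total 0 β with hβ | hβ
  · have h1 : ∀ n ∈ range N, |(⌊((n + 1 : ℕ) : ℝ) * β + θ⌋ : ℝ) - (⌊(n : ℝ) * β + θ⌋ : ℝ)| =
        (⌊((n + 1 : ℕ) : ℝ) * β + θ⌋ : ℝ) - (⌊(n : ℝ) * β + θ⌋ : ℝ) := by
      intro n _
      apply abs_of_nonneg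
      rw [sub_nonneg]
      have : ⌊(n : ℝ) * β + θ⌋ ≤ ⌊((n + 1 : ℕ) : ℝ) * β + θ⌋ := by
        apply Int.floor_le_floor
        push_cast
        nlinarith
      exact_mod_cast this
    rw [sum_congr rfl h1, tele, abs_of_nonneg hβ]
    simp only [Nat.cast_zero, zero_mul, zero_add]
    linarith
  · have h1 : ∀ n ∈ range N, |(⌊((n + 1 : ℕ) : ℝ) * β + θ⌋ : ℝ) - (⌊(n : ℝ) * β + θ⌋ : ℝ)| =
        -((⌊((n + 1 : ℕ) : ℝ) * β + θ⌋ : ℝ) - (⌊(n : ℝ) * β + θ⌋ : ℝ)) := by
      intro n _
      apply abs_of_nonpos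
      rw [sub_nonpos]
      have : ⌊((n + 1 : ℕ) : ℝ) * β + θ⌋ ≤ ⌊(n : ℝ) * β + θ⌋ := by
        apply Int.floor_le_floor
        push_cast
        nlinarith
      exact_mod_cast this
    rw [sum_congr rfl h1, sum_neg_distrib, tele, abs_of_nonpos hβ]
    simp only [Nat.cast_zero, zero_mul, zero_add]
    linarith

lemma saw_var (β θ : ℝ) (N : ℕ) :
    ∑ n ∈ range N, |saw (((n + 1 : ℕ) : ℝ) * β + θ) - saw ((n : ℝ) * β + θ)| ≤ 2 * (N * |β|) + 1 := by
  have h1 : ∀ n ∈ range N, |saw (((n + 1 : ℕ) : ℝ) * β + θ) - saw ((n : ℝ) * β + θ)| ≤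
      |β| + |(⌊((n + 1 : ℕ) : ℝ) * β + θ⌋ : ℝ) - (⌊(n : ℝ) * β + θ⌋ : ℝ)| := by
    intro n _
    have : saw (((n + 1 : ℕ) : ℝ) * β + θ) - saw ((n : ℝ) * β + θ) =
        β - ((⌊((n + 1 : ℕ) : ℝ) * β + θ⌋ : ℝ) - (⌊(n : ℝ) * β + θ⌋ : ℝ)) := by
      unfold saw Int.fract
      push_cast
      ring
    rw [this]
    exact abs_sub _ _
  refine (sum_le_sum h1).trans ?_
  rw [sum_add_distrib, sum_const, card_range, nsmul_eq_mul]
  have := floor_var β θ N
  linarith

/-- distance from the sawtooth function to its Fourier sum -/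
lemma saw_fourier (K : ℕ) (hK : 1 ≤ K) (t : ℝ) :
    |saw t + H419R2.Saw.B K t| ≤ KK K t / K := by
  have hK0 : (1 : ℝ) ≤ K := by exact_mod_cast hK
  have hpi := Real.pi_gt_three
  -- reduction to `0 ≤ t < 1`
  have red : ∀ s : ℝ, 0 ≤ s → s < 1 → |saw s + H419R2.Saw.B K s| ≤ KK K s / K := by
    intro s hs0 hs1
    have hsaw : saw s = s - 1 / 2 := by
      unfold saw
      rw [Int.fract_eq_self.2 ⟨hs0, hs1⟩]
    have hB := H419R2.Saw.B_abs K s
    have hd0 := dd_nonneg s
    have e1 : KK K s / K = 3 / (1 + K * dd s) := by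
      unfold KK
      field_simp
    rw [e1]
    -- the function `m = min s (1 - s)`
    have hdd : dd s ≤ 2 * Real.pi * min s (1 - s) := by
      rcases le_total s (1 - s) with h | h
      · rw [min_eq_left h]
        have := dd_le s
        rwa [abs_of_nonneg hs0] at this
      · rw [min_eq_right h]
        have h2 : dd s = dd (1 - s) := by
          have h3 := dd_add_int (-s) 1
          rw [dd_neg] at h3
          rw [← h3]
          congr 1
          push_cast
          ring
        rw [h2]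
        have := dd_le (1 - s)
        rwa [abs_of_nonneg (by linarith)] at this
    set m := min s (1 - s) with hm
    have hm0 : 0 ≤ m := by rw [hm]; exact le_min hs0 (by linarith)
    have hmh : m ≤ 1 / 2 := by
      rw [hm]
      rcases le_total s (1 - s) with h | h
      · rw [min_eq_left h]; linarith
      · rw [min_eq_right h]; linarith
    have hcrude : |saw s + H419R2.Saw.B K s| ≤ 3 / 2 := by
      have h1 := abs_saw_le s
      have h2 := abs_add_le (saw s) (H419R2.Saw.B K s)
      linarith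
    rcases le_or_gt (K * dd s) 1 with h | h
    · refine hcrude.trans ?_
      rw [div_le_div_iff₀ (by norm_num) (by positivity)]
      linarith
    · have hmpos : 0 < m := by
        rcases hm0.eq_or_lt with h' | h'
        · exfalso
          rw [← h'] at hdd
          have : dd s ≤ 0 := by linarith
          have : (K : ℝ) * dd s ≤ 0 := mul_nonpos_of_nonneg_of_nonpos (by linarith) this
          linarith
        · exact h'
      have hfine : |saw s + H419R2.Saw.B K s| ≤ 1 / ((2 * K + 1) * Real.pi * m) := by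
        rcases le_total s (1 - s) with h' | h'
        · have hms : m = s := by rw [hm, min_eq_left h']
          have := H419R2.Saw.key K (x := s) (by rw [← hms]; exact hmpos) (by linarith)
          rw [hsaw, hms]
          have e : s - 1 / 2 + H419R2.Saw.B K s = H419R2.Saw.B K s - (1 / 2 - s) := by ring
          rw [e]
          exact this
        · have hms : m = 1 - s := by rw [hm, min_eq_right h']
          have h3 := H419R2.Saw.key K (x := 1 - s) (by rw [← hms]; exact hmpos) (by linarith)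
          have h4 : H419R2.Saw.B K (1 - s) = -H419R2.Saw.B K s := by
            have h5 := H419R2.Saw.B_add_int K (-s) 1
            rw [H419R2.Saw.B_neg] at h5
            rw [← h5]
            congr 1
            push_cast
            ring
          rw [h4] at h3
          rw [hsaw, hms]
          have e : s - 1 / 2 + H419R2.Saw.B K s = -(-H419R2.Saw.B K s - (1 / 2 - (1 - s))) := by ring
          rw [e, abs_neg]
          exact h3
      refine hfine.trans ?_
      rw [div_le_div_iff₀ (by positivity) (by positivity)]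
      have h5 : (K : ℝ) * dd s ≤ K * (2 * Real.pi * m) := mul_le_mul_of_nonneg_left hdd (by linarith)
      have h6 : 0 < Real.pi * m := by positivity
      nlinarith
  have hfr : saw t = saw (Int.fract t) := by
    unfold saw
    rw [Int.fract_fract]
  have hB : H419R2.Saw.B K t = H419R2.Saw.B K (Int.fract t) := by
    have := H419R2.Saw.B_add_int K (Int.fract t) ⌊t⌋
    rw [Int.fract_add_floor] at this
    exact this
  have hKK : KK (K : ℝ) t = KK K (Int.fract t) := by
    unfold KK
    have := dd_add_int (Int.fract t) ⌊t⌋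
    rw [Int.fract_add_floor] at this
    rw [this]
  rw [hfr, hB, hKK]
  exact red _ (Int.fract_nonneg t) (Int.fract_lt_one t)

end Pool.Agent.U798.MN
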