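import Pool.Agent.U798.MN.A
import Pool.Agent.R311.DEH.A3
import Pool.Agent.H373R2.T7.BilF

/-! Sums of the Moebius function over a residue class, twisted by a sawtooth function: a bound
which is uniform in the slope and in the phase. -/

set_option autoImplicit false

open Finset
open Pool.Agent.H807R2.Dav
open Pool.Agent.H373R2.T7 (muR muR_abs mu_ap sup_mu ev_log' ev_L' orth)

namespace Pool.Agent.U798.MN

/-- the twisted sum over the class of `r` modulo `b` -/
noncomputable def Tw (b r N : ℕ) (y θ : ℝ) : ℝ :=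
  ∑ k ∈ (Icc 1 N).filter (fun k => k ≡ r [MOD b]), muR k * saw (k * y + θ)

lemma class_exp (b N : ℕ) (hb : 1 ≤ b) (r : ℕ) (D : ℝ)
    (h : ∀ α : ℝ, ‖∑ n ∈ Icc 1 N, ((muR n : ℝ) : ℂ) * ee ((n : ℝ) * α)‖ ≤ D) (α : ℝ) :
    ‖∑ n ∈ (Icc 1 N).filter (fun n => n ≡ r [MOD b]), ((muR n : ℝ) : ℂ) * ee ((n : ℝ) * α)‖ ≤ D := by
  have hb0 : (b : ℂ) ≠ 0 := by
    have : b ≠ 0 := by omega
    exact_mod_cast this
  have hbr : (0 : ℝ) < b := by exact_mod_cast hb
  have h1 : (b : ℂ) * ∑ n ∈ (Icc 1 N).filter (fun n => n ≡ r [MOD b]),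
      ((muR n : ℝ) : ℂ) * ee ((n : ℝ) * α) =
      ∑ t ∈ range b, ee (-((t : ℝ) * ((r : ℝ) / b))) *
        ∑ n ∈ Icc 1 N, ((muR n : ℝ) : ℂ) * ee ((n : ℝ) * (α + t / b)) := by
    rw [sum_filter, mul_sum]
    simp_rw [mul_sum]
    rw [sum_comm]
    refine sum_congr rfl fun n _ => ?_
    have h2 := orth b hb ((n : ℤ) - r)
    have h3 : ∀ t ∈ range b, ee (-((t : ℝ) * ((r : ℝ) / b))) *
        (((muR n : ℝ) : ℂ) * ee ((n : ℝ) * (α + t / b))) =
        ee ((t : ℝ) * ((((n : ℤ) - r : ℤ) : ℝ) / b)) * (((muR n : ℝ) : ℂ) * ee ((n : ℝ) * α)) := by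
      intro t _
      have e : ee (-((t : ℝ) * ((r : ℝ) / b))) * ee ((n : ℝ) * (α + t / b)) =
          ee ((t : ℝ) * ((((n : ℤ) - r : ℤ) : ℝ) / b)) * ee ((n : ℝ) * α) := by
        rw [← ee_add, ← ee_add]
        congr 1
        push_cast
        ring
      linear_combination ((muR n : ℝ) : ℂ) * e
    rw [sum_congr rfl h3, ← sum_mul, h2]
    have h4 : ((b : ℤ) ∣ (n : ℤ) - r) ↔ n ≡ r [MOD b] := by
      rw [Nat.modEq_iff_dvd]
      constructor
      · intro h
        have := (dvd_neg (α := ℤ)).2 h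
        rwa [neg_sub] at this
      · intro h
        have := (dvd_neg (α := ℤ)).2 h
        rwa [neg_sub] at this
    by_cases h5 : n ≡ r [MOD b]
    · rw [if_pos h5, if_pos (h4.2 h5)]
    · rw [if_neg h5, if_neg (fun h => h5 (h4.1 h))]
      ring
  have h2 : (b : ℝ) * ‖∑ n ∈ (Icc 1 N).filter (fun n => n ≡ r [MOD b]),
      ((muR n : ℝ) : ℂ) * ee ((n : ℝ) * α)‖ ≤ b * D := by
    calc (b : ℝ) * ‖∑ n ∈ (Icc 1 N).filter (fun n => n ≡ r [MOD b]),
          ((muR n : ℝ) : ℂ) * ee ((n : ℝ) * α)‖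
        = ‖(b : ℂ) * ∑ n ∈ (Icc 1 N).filter (fun n => n ≡ r [MOD b]),
          ((muR n : ℝ) : ℂ) * ee ((n : ℝ) * α)‖ := by
          rw [norm_mul, Complex.norm_natCast]
      _ ≤ ∑ t ∈ range b, D := by
          rw [h1]
          refine (norm_sum_le _ _).trans (sum_le_sum fun t _ => ?_)
          rw [norm_mul, norm_ee, one_mul]
          exact h _
      _ = b * D := by rw [sum_const, card_range, nsmul_eq_mul]
  exact le_of_mul_le_mul_left h2 hbr

/-- the minor arcs -/
lemma minor (b N K : ℕ) (hb : 1 ≤ b) (hK : 1 ≤ K) (r : ℕ) (D : ℝ)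
    (h : ∀ α : ℝ, ‖∑ n ∈ Icc 1 N, ((muR n : ℝ) : ℂ) * ee ((n : ℝ) * α)‖ ≤ D)
    {q : ℕ} (hq : 1 ≤ q) {a : ℤ} (hcop : IsCoprime a (q : ℤ)) {y : ℝ}
    (hy : |y - a / q| ≤ 1 / (q : ℝ) ^ 2) (θ : ℝ) :
    |Tw b r N y θ| ≤ K * D +
      (((N : ℝ) + 1) / q + 1) * (39 * K + 3 * q * (1 + Real.log q)) / K := by
  have hK0 : (1 : ℝ) ≤ K := by exact_mod_cast hK
  have hD : 0 ≤ D := (norm_nonneg _).trans (h 0)
  set S := (Icc 1 N).filter (fun k => k ≡ r [MOD b]) with hS
  -- the Fourier part
  have h1 : |∑ k ∈ S, muR k * H419R2.Saw.B K (k * y + θ)| ≤ K * D := by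
    have e1 : ∑ k ∈ S, muR k * H419R2.Saw.B K (k * y + θ) =
        ∑ n ∈ Icc 1 K, (1 / Real.pi) * (1 / (n : ℝ)) *
          ∑ k ∈ S, muR k * Real.sin (2 * Real.pi * n * (k * y + θ)) := by
      unfold H419R2.Saw.B
      simp_rw [mul_sum]
      rw [sum_comm]
      refine sum_congr rfl fun n _ => sum_congr rfl fun k _ => ?_
      ring
    rw [e1]
    refine (abs_sum_le_sum_abs _ _).trans ?_
    have h2 : ∀ n ∈ Icc 1 K, |(1 / Real.pi) * (1 / (n : ℝ)) *
          ∑ k ∈ S, muR k * Real.sin (2 * Real.pi * n * (k * y + θ))| ≤ D := by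
      intro n hn
      rw [mem_Icc] at hn
      have hn1 : (1 : ℝ) ≤ n := by exact_mod_cast hn.1
      have h3 : |∑ k ∈ S, muR k * Real.sin (2 * Real.pi * n * (k * y + θ))| ≤ D := by
        have h4 : ∑ k ∈ S, muR k * Real.sin (2 * Real.pi * n * (k * y + θ)) =
            (∑ k ∈ S, ((muR k : ℝ) : ℂ) * ee (n * (k * y + θ))).im := by
          rw [Complex.im_sum]
          refine sum_congr rfl fun k _ => ?_
          rw [ee_eq, Complex.im_ofReal_mul, Complex.exp_ofReal_mul_I_im]
          congr 2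
          ring
        rw [h4]
        refine (Complex.abs_im_le_norm _).trans ?_
        have h5 : ∑ k ∈ S, ((muR k : ℝ) : ℂ) * ee (n * (k * y + θ)) =
            ee (n * θ) * ∑ k ∈ S, ((muR k : ℝ) : ℂ) * ee ((k : ℝ) * (n * y)) := by
          rw [mul_sum]
          refine sum_congr rfl fun k _ => ?_
          have : ee (n * (k * y + θ)) = ee (n * θ) * ee ((k : ℝ) * (n * y)) := by
            rw [← ee_add]; congr 1; ring
          rw [this]; ring
        rw [h5, norm_mul, norm_ee, one_mul]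
        exact class_exp b N hb r D h _
      rw [abs_mul, abs_mul]
      have h6 : |1 / Real.pi| ≤ 1 := by
        rw [abs_of_pos (by have := Real.pi_pos; positivity), div_le_one Real.pi_pos]
        linarith [Real.pi_gt_three]
      have h7 : |1 / (n : ℝ)| ≤ 1 := by
        rw [abs_of_pos (by positivity), div_le_one (by linarith)]
        exact hn1
      calc |1 / Real.pi| * |1 / (n : ℝ)| * |∑ k ∈ S, muR k * Real.sin (2 * Real.pi * n * (k * y + θ))|
          ≤ 1 * 1 * D := by
            apply mul_le_mul _ h3 (abs_nonneg _) (by norm_num)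
            exact mul_le_mul h6 h7 (abs_nonneg _) (by norm_num)
        _ = D := by ring
    refine (sum_le_sum h2).trans ?_
    rw [sum_const, Nat.card_Icc, nsmul_eq_mul]
    simp
  -- the error
  have h2 : |∑ k ∈ S, muR k * (saw (k * y + θ) + H419R2.Saw.B K (k * y + θ))| ≤
      (((N : ℝ) + 1) / q + 1) * (39 * K + 3 * q * (1 + Real.log q)) / K := by
    refine (abs_sum_le_sum_abs _ _).trans ?_
    have h3 : ∀ k ∈ S, |muR k * (saw (k * y + θ) + H419R2.Saw.B K (k * y + θ))| ≤
        KK K (θ + k * y) / K := by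
      intro k _
      rw [abs_mul]
      calc |muR k| * |saw (k * y + θ) + H419R2.Saw.B K (k * y + θ)| ≤
          1 * |saw (k * y + θ) + H419R2.Saw.B K (k * y + θ)| :=
            mul_le_mul_of_nonneg_right (muR_abs k) (abs_nonneg _)
        _ ≤ _ := by
            rw [one_mul, add_comm (θ : ℝ) (k * y)]
            exact saw_fourier K hK _
    refine (sum_le_sum h3).trans ?_
    rw [← sum_div]
    apply div_le_div_of_nonneg_right _ (by linarith)
    have h4 := vino hq hcop hy (M := K) (by linarith) θ (N + 1)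
    push_cast at h4
    refine le_trans ?_ h4
    apply sum_le_sum_of_subset_of_nonneg
    · intro k hk
      rw [hS, mem_filter, mem_Icc] at hk
      rw [mem_range]
      omega
    · intro k _ _
      exact KK_nonneg (by linarith) _
  have e : Tw b r N y θ = ∑ k ∈ S, muR k * (saw (k * y + θ) + H419R2.Saw.B K (k * y + θ)) -
      ∑ k ∈ S, muR k * H419R2.Saw.B K (k * y + θ) := by
    unfold Tw
    rw [← sum_sub_distrib]
    refine sum_congr rfl fun k _ => ?_
    ring
  rw [e]
  refine (abs_sub _ _).trans ?_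
  linarith

/-- the major arcs -/
lemma major (b N q : ℕ) (hb : 1 ≤ b) (hq : 1 ≤ q) (r : ℕ) (G : ℝ)
    (hG : ∀ c y : ℕ, y ≤ N → |∑ n ∈ (Icc 1 y).filter (fun n => n ≡ c [MOD (b * q)]), muR n| ≤ G)
    (a : ℤ) (y θ : ℝ) :
    |Tw b r N y θ| ≤ (b * q : ℕ) * (G * (3 / 2 + 2 * (N * |y - a / q|))) := by
  set m := b * q with hm
  have hm1 : 1 ≤ m := Nat.mul_pos hb hq
  have hq0 : (q : ℝ) ≠ 0 := by
    have : q ≠ 0 := by omega
    exact_mod_cast this
  have hG0 : 0 ≤ G := (abs_nonneg _).trans (hG 0 0 (Nat.zero_le _))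
  set β : ℝ := y - a / q with hβ
  have hcls : ∀ c ∈ range m,
      |∑ k ∈ (Icc 1 N).filter (fun k => k % m = c),
        (if k ≡ r [MOD b] then muR k * saw (k * y + θ) else 0)| ≤
      G * (3 / 2 + 2 * (N * |β|)) := by
    intro c hc
    rw [mem_range] at hc
    have hfil : (Icc 1 N).filter (fun k => k % m = c) = (Icc 1 N).filter (fun k => k ≡ c [MOD m]) := by
      apply filter_congr
      intro k _
      unfold Nat.ModEq
      rw [Nat.mod_eq_of_lt hc]
    rw [hfil]
    by_cases hcr : c ≡ r [MOD b]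
    · have h1 : ∑ k ∈ (Icc 1 N).filter (fun k => k ≡ c [MOD m]),
          (if k ≡ r [MOD b] then muR k * saw (k * y + θ) else 0) =
          ∑ k ∈ Icc 1 N, (if k ≡ c [MOD m] then muR k else 0) * saw (k * β + (c * (a / q) + θ)) := by
        rw [sum_filter]
        refine sum_congr rfl fun k _ => ?_
        by_cases hk : k ≡ c [MOD m]
        · have hkb : k ≡ r [MOD b] := (hk.of_mul_right q).trans hcr
          rw [if_pos hk, if_pos hkb, if_pos hk]
          congr 1
          have hkq : k ≡ c [MOD q] := by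
            have := hk.of_mul_left b
            exact this
          obtain ⟨j, hj⟩ := (Nat.modEq_iff_dvd.1 hkq)
          -- c - k = q * j
          have e : (k : ℝ) * y + θ = (k * β + (c * (a / q) + θ)) + ((-(j * a) : ℤ) : ℝ) := by
            have h3 : ((c : ℝ) - k) = q * j := by exact_mod_cast hj
            have h4 : (c : ℝ) = k + q * j := by linarith
            rw [hβ, h4]
            push_cast
            field_simp
            ring
          rw [e, saw_add_int]
        · rw [if_neg hk, if_neg hk, zero_mul]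
      rw [h1]
      have h2 := abel_var (fun k => if k ≡ c [MOD m] then muR k else 0)
        (fun k => saw (k * β + (c * (a / q) + θ))) N G (by
          intro y' hy'
          have := hG c y' hy'
          rwa [sum_filter] at this)
      refine h2.trans ?_
      apply mul_le_mul_of_nonneg_left _ hG0
      have h3 := abs_saw_le (N * β + (c * (a / q) + θ))
      have h4 := saw_var β (c * (a / q) + θ) N
      push_cast at h3 h4 ⊢
      linarith
    · have h1 : ∀ k ∈ (Icc 1 N).filter (fun k => k ≡ c [MOD m]),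
          (if k ≡ r [MOD b] then muR k * saw (k * y + θ) else 0) = 0 := by
        intro k hk
        rw [mem_filter] at hk
        rw [if_neg]
        intro hkr
        exact hcr (((hk.2).of_mul_right q).symm.trans hkr)
      rw [sum_congr rfl h1, sum_const_zero, abs_zero]
      positivity
  have e : Tw b r N y θ = ∑ c ∈ range m, ∑ k ∈ (Icc 1 N).filter (fun k => k % m = c),
      (if k ≡ r [MOD b] then muR k * saw (k * y + θ) else 0) := by
    unfold Tw
    rw [sum_filter]
    exact (sum_fiberwise_of_maps_to (fun k _ => mem_range.2 (Nat.mod_lt _ (by omega))) _).symm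
  rw [e]
  refine (abs_sum_le_sum_abs _ _).trans ((sum_le_sum hcls).trans ?_)
  rw [sum_const, card_range, nsmul_eq_mul]

set_option maxHeartbeats 1000000 in
/-- the uniform bound -/
theorem block (b U : ℕ) (hb : 1 ≤ b) : ∃ N0 : ℕ, ∀ N : ℕ, N0 ≤ N → ∀ (r : ℕ) (y θ : ℝ),
    |Tw b r N y θ| ≤ N / Real.log N ^ U := by
  obtain ⟨n1, hn1⟩ := sup_mu (2 * U + 4)
  obtain ⟨n2, hn2⟩ := mu_ap (U + 2) (3 * U + 4)
  obtain ⟨n3, hn3⟩ := ev_log' (U + 1) 1
  obtain ⟨n4, hn4⟩ := ev_L' (max b 200)
  refine ⟨max (max n1 n2) (max (max n3 n4) 4), fun N hN r y θ => ?_⟩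
  have hN1 : n1 ≤ N := le_trans (le_trans (le_max_left _ _) (le_max_left _ _)) hN
  have hN2 : n2 ≤ N := le_trans (le_trans (le_max_right _ _) (le_max_left _ _)) hN
  have hN3 : n3 ≤ N := le_trans (le_trans (le_trans (le_max_left _ _) (le_max_left _ _)) (le_max_right _ _)) hN
  have hN4 : n4 ≤ N := le_trans (le_trans (le_trans (le_max_right _ _) (le_max_left _ _)) (le_max_right _ _)) hN
  have hN5 : 4 ≤ N := le_trans (le_trans (le_max_right _ _) (le_max_right _ _)) hN
  have hNr : (4 : ℝ) ≤ N := by exact_mod_cast hN5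
  have hN0 : (0 : ℝ) < N := by linarith
  have a3 := hn3 N hN3
  have a4 := hn4 N hN4
  set L := Real.log N with hL
  have hL200 : (200 : ℝ) ≤ L := (le_max_right _ _).trans a4
  have hLb : (b : ℝ) ≤ L := (le_max_left _ _).trans a4
  have hL0 : 0 < L := by linarith
  have hL1 : 1 ≤ L := by linarith
  rw [one_mul] at a3
  have hLB1 : 1 ≤ L ^ (U + 1) := one_le_pow₀ hL1
  have hLB0 : 0 < L ^ (U + 1) := by positivity
  have hLU0 : 0 < L ^ U := by positivity
  have hsN : √(N : ℝ) * √(N : ℝ) = N := Real.mul_self_sqrt hN0.le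
  have hs2 : 2 ≤ √(N : ℝ) := by
    apply Real.le_sqrt_of_sq_le
    linarith
  have hLBN : L ^ (U + 1) ≤ N := by nlinarith
  set Q : ℕ := ⌊(N : ℝ) / L ^ (U + 1)⌋₊ with hQ
  have hQ1 : 0 < Q := by
    rw [hQ, Nat.floor_pos, le_div_iff₀ hLB0, one_mul]
    exact hLBN
  have hQle : (Q : ℝ) ≤ N / L ^ (U + 1) := Nat.floor_le (by positivity)
  have hQlt : N / L ^ (U + 1) < (Q : ℝ) + 1 := Nat.lt_floor_add_one _
  obtain ⟨ρ, hρ1, hρ2⟩ := Real.exists_rat_abs_sub_le_and_den_le y hQ1
  set q := ρ.den with hq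
  have hq1 : 1 ≤ q := ρ.pos
  have hqr : (1 : ℝ) ≤ q := by exact_mod_cast hq1
  have hqQ : (q : ℝ) ≤ Q := by exact_mod_cast hρ2
  have hρe : (ρ : ℝ) = (ρ.num : ℝ) / (q : ℝ) := by
    rw [hq]
    exact_mod_cast (Rat.num_div_den ρ).symm
  rw [hρe] at hρ1
  rcases le_or_gt (q : ℝ) (L ^ (U + 1)) with hcase | hcase
  · -- major arcs
    have hbq : ((b * q : ℕ) : ℝ) ≤ L ^ (U + 2) := by
      push_cast
      calc (b : ℝ) * q ≤ L * L ^ (U + 1) := mul_le_mul hLb hcase (by linarith) hL0.le
        _ = L ^ (U + 2) := by ring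
    have h1 := major b N q hb hq1 r (N / L ^ (3 * U + 4))
      (fun c y' hy' => hn2 N hN2 (b * q) (Nat.mul_pos hb hq1) hbq c y' hy') ρ.num y θ
    refine h1.trans ?_
    have h2 : (N : ℝ) * |y - ρ.num / q| ≤ L ^ (U + 1) := by
      have h3 : |y - ρ.num / q| ≤ 1 / ((Q : ℝ) + 1) := by
        refine hρ1.trans ?_
        apply one_div_le_one_div_of_le (by positivity)
        nlinarith
      calc (N : ℝ) * |y - ρ.num / q| ≤ N * (1 / ((Q : ℝ) + 1)) :=
            mul_le_mul_of_nonneg_left h3 hN0.le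
        _ ≤ L ^ (U + 1) := by
            rw [mul_one_div, div_le_iff₀ (by positivity)]
            rw [div_lt_iff₀ hLB0] at hQlt
            linarith
    have h4 : (N : ℝ) / L ^ (3 * U + 4) * (3 / 2 + 2 * (N * |y - ρ.num / q|)) ≤
        N / L ^ (3 * U + 4) * (4 * L ^ (U + 1)) := by
      apply mul_le_mul_of_nonneg_left _ (by positivity)
      linarith
    calc ((b * q : ℕ) : ℝ) * (N / L ^ (3 * U + 4) * (3 / 2 + 2 * (N * |y - ρ.num / q|)))
        ≤ L ^ (U + 2) * (N / L ^ (3 * U + 4) * (4 * L ^ (U + 1))) := by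
          apply mul_le_mul hbq h4 (by positivity) (by positivity)
      _ = (4 / L) * (N / L ^ U) := by
          have e : L ^ (3 * U + 4) = L ^ (U + 2) * L ^ (U + 1) * (L * L ^ U) := by ring
          rw [e]
          field_simp
      _ ≤ 1 * (N / L ^ U) := by
          apply mul_le_mul_of_nonneg_right _ (by positivity)
          rw [div_le_one hL0]
          linarith
      _ = _ := one_mul _
  · -- minor arcs
    set K : ℕ := ⌈L ^ (U + 2)⌉₊ with hK
    have hK2 : L ^ (U + 2) ≤ K := Nat.le_ceil _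
    have hLK : 1 ≤ L ^ (U + 2) := one_le_pow₀ hL1
    have hK3 : (K : ℝ) ≤ 2 * L ^ (U + 2) := by
      have := Nat.ceil_lt_add_one (show 0 ≤ L ^ (U + 2) by positivity)
      linarith
    have hK0 : (0 : ℝ) < K := by linarith
    have hK1 : 1 ≤ K := by exact_mod_cast hK0
    have hy2 : |y - ρ.num / q| ≤ 1 / (q : ℝ) ^ 2 := by
      refine hρ1.trans ?_
      apply one_div_le_one_div_of_le (by positivity)
      rw [sq]
      nlinarith
    have hcop : IsCoprime ρ.num (q : ℤ) := by
      rw [Int.isCoprime_iff_gcd_eq_one]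
      exact ρ.reduced
    have h1 := minor b N K hb hK1 r (N / L ^ (2 * U + 4)) (fun α => hn1 N hN1 α) hq1 hcop hy2 θ
    refine h1.trans ?_
    have hlogq0 : 0 ≤ Real.log q := Real.log_nonneg hqr
    have hqN : (q : ℝ) ≤ N := by
      refine hqQ.trans (hQle.trans ?_)
      exact div_le_self hN0.le hLB1
    have hlogq : Real.log q ≤ L := Real.log_le_log (by linarith) hqN
    -- first term
    have t1 : (K : ℝ) * (N / L ^ (2 * U + 4)) ≤ (2 / L ^ 2) * (N / L ^ U) := by
      calc (K : ℝ) * (N / L ^ (2 * U + 4)) ≤ (2 * L ^ (U + 2)) * (N / L ^ (2 * U + 4)) :=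
            mul_le_mul_of_nonneg_right hK3 (by positivity)
        _ = (2 / L ^ 2) * (N / L ^ U) := by
            have e : L ^ (2 * U + 4) = L ^ (U + 2) * (L ^ 2 * L ^ U) := by ring
            rw [e]
            field_simp
    -- second term
    have t2 : (((N : ℝ) + 1) / q + 1) * (39 * K + 3 * q * (1 + Real.log q)) / K ≤
        (78 / L) * (N / L ^ U) + 39 + (18 / L) * (N / L ^ U) := by
      have e : (((N : ℝ) + 1) / q + 1) * (39 * K + 3 * q * (1 + Real.log q)) / K =
          39 * (((N : ℝ) + 1) / q) + 39 + 3 * ((N : ℝ) + 1 + q) * (1 + Real.log q) / K := by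
        field_simp
      rw [e]
      have s1 : ((N : ℝ) + 1) / q ≤ (2 / L) * (N / L ^ U) := by
        calc ((N : ℝ) + 1) / q ≤ (2 * N) / L ^ (U + 1) := by
              apply div_le_div₀ (by positivity) (by linarith) (by positivity) hcase.le
          _ = (2 / L) * (N / L ^ U) := by rw [pow_succ]; field_simp
      have s2 : 3 * ((N : ℝ) + 1 + q) * (1 + Real.log q) / K ≤ (18 / L) * (N / L ^ U) := by
        calc 3 * ((N : ℝ) + 1 + q) * (1 + Real.log q) / K ≤ 3 * (3 * N) * (2 * L) / L ^ (U + 2) := by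
              apply div_le_div₀ (by positivity) _ (by positivity) hK2
              apply mul_le_mul _ _ (by positivity) (by positivity)
              · linarith
              · linarith
          _ = (18 / L) * (N / L ^ U) := by
              have e2 : L ^ (U + 2) = L * (L * L ^ U) := by ring
              rw [e2]
              field_simp
              ring
      have : 39 * (((N : ℝ) + 1) / q) ≤ (78 / L) * (N / L ^ U) := by
        calc 39 * (((N : ℝ) + 1) / q) ≤ 39 * ((2 / L) * (N / L ^ U)) :=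
              mul_le_mul_of_nonneg_left s1 (by norm_num)
          _ = (78 / L) * (N / L ^ U) := by ring
      linarith
    -- the constant
    have t3 : (39 : ℝ) ≤ (1 / 4) * (N / L ^ U) := by
      have h5 : 156 ≤ N / L ^ U := by
        rw [le_div_iff₀ hLU0]
        have h6 : L ^ (U + 1) ≤ N := hLBN
        rw [pow_succ] at h6
        nlinarith
      linarith
    have hX : 0 < N / L ^ U := by positivity
    have c1 : 2 / L ^ 2 ≤ 1 / 100 := by
      have hL2 : (200 : ℝ) * 200 ≤ L ^ 2 := by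
        rw [sq]
        exact mul_le_mul hL200 hL200 (by norm_num) hL0.le
      rw [div_le_div_iff₀ (by positivity) (by norm_num)]
      linarith
    have c2 : 78 / L ≤ 39 / 100 := by
      rw [div_le_div_iff₀ hL0 (by norm_num)]
      linarith
    have c3 : 18 / L ≤ 9 / 100 := by
      rw [div_le_div_iff₀ hL0 (by norm_num)]
      linarith
    have d1 := mul_le_mul_of_nonneg_right c1 hX.le
    have d2 := mul_le_mul_of_nonneg_right c2 hX.le
    have d3 := mul_le_mul_of_nonneg_right c3 hX.le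
    linarith

end Pool.Agent.U798.MN
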