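import Pool.Agent.U798.MN.B

/-! The series `∑ μ(k) χ(k) f(k y) / k` for a Dirichlet character `χ` modulo `b` and the digit function `f`
with Fourier coefficients `χ(m) / (2 π i m)`: uniform convergence. -/

set_option autoImplicit false

open Finset
open Pool.Agent.H807R2.Dav
open Pool.Agent.H373R2.T7 (muR muR_abs)

namespace Pool.Agent.U798.MN

variable {b : ℕ}

/-- the weights of the translates of the sawtooth function -/
noncomputable def wt (χ : DirichletCharacter ℂ b) (j : ℕ) : ℂ :=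
  -(1 / (b : ℂ)) * ∑ m ∈ range b, χ (m : ZMod b) * ee (-((m : ℝ) * j / b))

/-- the digit function -/
noncomputable def dig (χ : DirichletCharacter ℂ b) (t : ℝ) : ℂ :=
  ∑ j ∈ range b, wt χ j * ((saw (t + j / b) : ℝ) : ℂ)

lemma norm_chi (χ : DirichletCharacter ℂ b) (a : ZMod b) : ‖χ a‖ ≤ 1 := by
  exact DirichletCharacter.norm_le_one χ a

lemma norm_wt (χ : DirichletCharacter ℂ b) (j : ℕ) : ‖wt χ j‖ ≤ 1 := by
  unfold wt
  rcases Nat.eq_zero_or_pos b with hb | hb
  · subst hb; simp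
  have hb' : (0 : ℝ) < b := by exact_mod_cast hb
  rw [norm_mul, norm_neg, norm_div, norm_one, Complex.norm_natCast]
  have h1 : ‖∑ m ∈ range b, χ (m : ZMod b) * ee (-((m : ℝ) * j / b))‖ ≤ b := by
    refine (norm_sum_le _ _).trans ?_
    calc ∑ m ∈ range b, ‖χ (m : ZMod b) * ee (-((m : ℝ) * j / b))‖ ≤ ∑ m ∈ range b, (1 : ℝ) := by
          refine sum_le_sum fun m _ => ?_
          rw [norm_mul, norm_ee, mul_one]
          exact norm_chi χ _
      _ = b := by simp
  calc 1 / (b : ℝ) * ‖∑ m ∈ range b, χ (m : ZMod b) * ee (-((m : ℝ) * j / b))‖ ≤ 1 / (b : ℝ) * b :=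
        mul_le_mul_of_nonneg_left h1 (by positivity)
    _ = 1 := by field_simp

lemma norm_dig (χ : DirichletCharacter ℂ b) (t : ℝ) : ‖dig χ t‖ ≤ b := by
  unfold dig
  refine (norm_sum_le _ _).trans ?_
  calc ∑ j ∈ range b, ‖wt χ j * ((saw (t + j / b) : ℝ) : ℂ)‖ ≤ ∑ j ∈ range b, (1 : ℝ) := by
        refine sum_le_sum fun j _ => ?_
        rw [norm_mul, Complex.norm_real, Real.norm_eq_abs]
        have h1 := norm_wt χ j
        have h2 := abs_saw_le (t + j / b)
        have h3 : ‖wt χ j‖ * |saw (t + j / b)| ≤ 1 * (1 / 2) :=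
          mul_le_mul h1 h2 (abs_nonneg _) zero_le_one
        linarith
    _ = b := by simp

/-- the terms `μ(k) χ(k) f(k y)` -/
noncomputable def term (χ : DirichletCharacter ℂ b) (y : ℝ) (k : ℕ) : ℂ :=
  ((muR k : ℝ) : ℂ) * χ (k : ZMod b) * dig χ (k * y)

lemma norm_term (χ : DirichletCharacter ℂ b) (y : ℝ) (k : ℕ) : ‖term χ y k‖ ≤ b := by
  unfold term
  rw [norm_mul, norm_mul, Complex.norm_real, Real.norm_eq_abs]
  have h1 := muR_abs k
  have h2 := norm_chi χ (k : ZMod b)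
  have h3 := norm_dig χ (k * y)
  calc |muR k| * ‖χ (k : ZMod b)‖ * ‖dig χ (k * y)‖ ≤ 1 * 1 * b := by
        apply mul_le_mul _ h3 (norm_nonneg _) (by norm_num)
        exact mul_le_mul h1 h2 (norm_nonneg _) (by norm_num)
    _ = b := by ring

lemma sum_term_eq (hb : 1 ≤ b) (χ : DirichletCharacter ℂ b) (y : ℝ) (N : ℕ) :
    ∑ k ∈ Icc 1 N, term χ y k =
      ∑ j ∈ range b, wt χ j * ∑ r ∈ range b, χ (r : ZMod b) * ((Tw b r N y (j / b) : ℝ) : ℂ) := by
  have h1 : ∀ j ∈ range b, wt χ j * ∑ r ∈ range b, χ (r : ZMod b) * ((Tw b r N y (j / b) : ℝ) : ℂ) =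
      ∑ k ∈ Icc 1 N, wt χ j * (((muR k : ℝ) : ℂ) * χ (k : ZMod b) * ((saw (k * y + j / b) : ℝ) : ℂ)) := by
    intro j _
    rw [← mul_sum]
    congr 1
    rw [← sum_fiberwise_of_maps_to (s := Icc 1 N) (t := range b)
      (g := fun n => n % b) (fun n _ => mem_range.2 (Nat.mod_lt _ (by omega)))]
    refine sum_congr rfl fun r hr => ?_
    rw [mem_range] at hr
    unfold Tw
    have hfil : (Icc 1 N).filter (fun k => k % b = r) = (Icc 1 N).filter (fun k => k ≡ r [MOD b]) := by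
      apply filter_congr
      intro k _
      unfold Nat.ModEq
      rw [Nat.mod_eq_of_lt hr]
    rw [hfil]
    push_cast
    rw [mul_sum]
    refine sum_congr rfl fun k hk => ?_
    rw [mem_filter] at hk
    have : (k : ZMod b) = (r : ZMod b) := (ZMod.natCast_eq_natCast_iff k r b).2 hk.2
    rw [this]
    ring
  rw [sum_congr rfl h1, sum_comm]
  refine sum_congr rfl fun k _ => ?_
  unfold term dig
  rw [mul_sum]
  refine sum_congr rfl fun j _ => ?_
  ring

lemma sum_term_bound (hb : 1 ≤ b) (χ : DirichletCharacter ℂ b) (U : ℕ) :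
    ∃ N0 : ℕ, ∀ N : ℕ, N0 ≤ N → ∀ y : ℝ,
      ‖∑ k ∈ Icc 1 N, term χ y k‖ ≤ (b : ℝ) ^ 2 * (N / Real.log N ^ U) := by
  obtain ⟨N0, h⟩ := block b U hb
  refine ⟨N0, fun N hN y => ?_⟩
  rw [sum_term_eq hb]
  have hX : 0 ≤ (N : ℝ) / Real.log N ^ U := (abs_nonneg _).trans (h N hN 0 0 0)
  refine (norm_sum_le _ _).trans ?_
  calc ∑ j ∈ range b, ‖wt χ j * ∑ r ∈ range b, χ (r : ZMod b) * ((Tw b r N y (j / b) : ℝ) : ℂ)‖
      ≤ ∑ j ∈ range b, (b : ℝ) * (N / Real.log N ^ U) := by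
        refine sum_le_sum fun j _ => ?_
        rw [norm_mul]
        have h2 : ‖∑ r ∈ range b, χ (r : ZMod b) * ((Tw b r N y (j / b) : ℝ) : ℂ)‖ ≤
            (b : ℝ) * (N / Real.log N ^ U) := by
          refine (norm_sum_le _ _).trans ?_
          calc ∑ r ∈ range b, ‖χ (r : ZMod b) * ((Tw b r N y (j / b) : ℝ) : ℂ)‖
              ≤ ∑ r ∈ range b, (N : ℝ) / Real.log N ^ U := by
                refine sum_le_sum fun r _ => ?_
                rw [norm_mul, Complex.norm_real, Real.norm_eq_abs]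
                calc ‖χ (r : ZMod b)‖ * |Tw b r N y (j / b)| ≤ 1 * (N / Real.log N ^ U) :=
                      mul_le_mul (norm_chi χ _) (h N hN r y _) (abs_nonneg _) zero_le_one
                  _ = _ := one_mul _
            _ = (b : ℝ) * (N / Real.log N ^ U) := by rw [sum_const, card_range, nsmul_eq_mul]
        calc ‖wt χ j‖ * ‖∑ r ∈ range b, χ (r : ZMod b) * ((Tw b r N y (j / b) : ℝ) : ℂ)‖
            ≤ 1 * ((b : ℝ) * (N / Real.log N ^ U)) :=
              mul_le_mul (norm_wt χ j) h2 (norm_nonneg _) zero_le_one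
          _ = _ := one_mul _
    _ = (b : ℝ) ^ 2 * (N / Real.log N ^ U) := by
        rw [sum_const, card_range, nsmul_eq_mul]; ring

/-- partial sums of the series -/
noncomputable def ser (χ : DirichletCharacter ℂ b) (K : ℕ) (y : ℝ) : ℂ :=
  ∑ k ∈ Icc 1 K, term χ y k / k

lemma abel_div (F : ℕ → ℂ) (K : ℕ) (hK : 1 ≤ K) (d : ℕ) :
    ∑ k ∈ Icc 1 (K + d), F k / k - ∑ k ∈ Icc 1 K, F k / k =
      (∑ k ∈ Icc 1 (K + d), F k) / ((K + d : ℕ) : ℂ) - (∑ k ∈ Icc 1 K, F k) / (K : ℂ) +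
      ∑ i ∈ range d, (∑ k ∈ Icc 1 (K + i), F k) *
        (1 / ((K + i : ℕ) : ℂ) - 1 / ((K + i + 1 : ℕ) : ℂ)) := by
  induction d with
  | zero => simp
  | succ d ih =>
    rw [sum_range_succ, ← add_assoc K d 1, sum_Icc_succ_top (by omega)]
    have e1 : ∑ k ∈ Icc 1 (K + d), F k / (k : ℂ) + F (K + d + 1) / ((K + d + 1 : ℕ) : ℂ) -
        ∑ k ∈ Icc 1 K, F k / (k : ℂ) =
        (∑ k ∈ Icc 1 (K + d), F k / (k : ℂ) - ∑ k ∈ Icc 1 K, F k / (k : ℂ)) +
          F (K + d + 1) / ((K + d + 1 : ℕ) : ℂ) := by ring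
    rw [e1, ih, sum_Icc_succ_top (by omega) F]
    ring

/-- uniform Cauchy property, with a rate -/
theorem ser_cauchy (hb : 1 ≤ b) (χ : DirichletCharacter ℂ b) (U : ℕ) :
    ∃ (C : ℝ) (K0 : ℕ), 0 < C ∧ 3 ≤ K0 ∧ ∀ K : ℕ, K0 ≤ K → ∀ d : ℕ, ∀ y : ℝ,
      ‖ser χ (K + d) y - ser χ K y‖ ≤ C / Real.log K ^ (U + 1) := by
  obtain ⟨N0, h⟩ := sum_term_bound hb χ (U + 2)
  set D : ℝ := (b : ℝ) ^ 2 with hD
  have hD0 : 1 ≤ D := by
    have : (1 : ℝ) ≤ b := by exact_mod_cast hb
    rw [hD]; nlinarith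
  refine ⟨2 * D + 2 ^ (U + 2) * D, max N0 3, by positivity, le_max_right _ _, fun K hK d y => ?_⟩
  have hKN : N0 ≤ K := (le_max_left _ _).trans hK
  have hK3 : 3 ≤ K := (le_max_right _ _).trans hK
  have hlog1 : ∀ n : ℕ, 3 ≤ n → 1 ≤ Real.log n := by
    intro n hn
    rw [Real.le_log_iff_exp_le (by exact_mod_cast (by omega : 0 < n))]
    have h2 := Real.exp_one_lt_d9
    have h3 : (3 : ℝ) ≤ n := by exact_mod_cast hn
    linarith
  unfold ser
  rw [abel_div _ K (by omega) d]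
  set A : ℕ → ℂ := fun n => ∑ k ∈ Icc 1 n, term χ y k with hA
  have hAb : ∀ n : ℕ, N0 ≤ n → ‖A n‖ ≤ D * (n / Real.log n ^ (U + 2)) := fun n hn => h n hn y
  have hquot : ∀ n : ℕ, K ≤ n → ‖A n / (n : ℂ)‖ ≤ D / Real.log K ^ (U + 1) := by
    intro n hn
    have hn0 : (0 : ℝ) < n := by exact_mod_cast (by omega : 0 < n)
    have l1 := hlog1 K hK3
    have l2 : Real.log K ≤ Real.log n := Real.log_le_log (by exact_mod_cast (by omega : 0 < K))
      (by exact_mod_cast hn)
    rw [norm_div, Complex.norm_natCast, div_le_iff₀ hn0]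
    refine (hAb n (hKN.trans hn)).trans ?_
    rw [div_mul_eq_mul_div, mul_div_assoc]
    apply mul_le_mul_of_nonneg_left _ (by linarith)
    apply div_le_div_of_nonneg_left hn0.le (by positivity)
    calc Real.log K ^ (U + 1) ≤ Real.log n ^ (U + 1) := pow_le_pow_left₀ (by linarith) l2 _
      _ ≤ Real.log n ^ (U + 2) := pow_le_pow_right₀ (by linarith) (by omega)
  have hsum : ‖∑ i ∈ range d, A (K + i) * (1 / ((K + i : ℕ) : ℂ) - 1 / ((K + i + 1 : ℕ) : ℂ))‖ ≤
      2 ^ (U + 2) * D / Real.log K ^ (U + 1) := by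
    have hone : ∀ i ∈ range d, ‖A (K + i) * (1 / ((K + i : ℕ) : ℂ) - 1 / ((K + i + 1 : ℕ) : ℂ))‖ ≤
        2 ^ (U + 2) * D * (1 / Real.log ((K + i : ℕ) : ℝ) ^ (U + 1) -
          1 / Real.log ((K + (i + 1) : ℕ) : ℝ) ^ (U + 1)) := by
      intro i _
      set n := K + i with hn
      have hn3 : 3 ≤ n := by omega
      have hn0 : (0 : ℝ) < n := by exact_mod_cast (by omega : 0 < n)
      have hn1 : (0 : ℝ) < (n : ℝ) + 1 := by linarith
      have e0 : K + (i + 1) = n + 1 := by omega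
      rw [e0]
      have e1 : (1 / ((n : ℕ) : ℂ) - 1 / ((n + 1 : ℕ) : ℂ)) = ((1 / (n * ((n : ℝ) + 1)) : ℝ) : ℂ) := by
        have h1 : (n : ℂ) ≠ 0 := by exact_mod_cast (by omega : n ≠ 0)
        have h2 : ((n : ℂ) + 1) ≠ 0 := by exact_mod_cast (by omega : n + 1 ≠ 0)
        push_cast
        field_simp
        ring
      rw [e1, norm_mul, Complex.norm_real, Real.norm_of_nonneg (by positivity)]
      set u := Real.log (n : ℝ) with hu
      set v := Real.log ((n + 1 : ℕ) : ℝ) with hv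
      have hu1 : 1 ≤ u := hlog1 n hn3
      have huv : u ≤ v := Real.log_le_log hn0 (by push_cast; linarith)
      have hv2 : v ≤ 2 * u := by
        have h3 : ((n + 1 : ℕ) : ℝ) ≤ (n : ℝ) ^ 2 := by
          push_cast
          have : (3 : ℝ) ≤ n := by exact_mod_cast hn3
          nlinarith
        have h4 := Real.log_le_log (by positivity) h3
        rw [Real.log_pow] at h4
        rw [hv, hu]
        push_cast at h4 ⊢
        exact h4
      have hdiff : 1 / ((n : ℝ) + 1) ≤ v - u := by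
        have h5 : v - u = -Real.log (n / ((n : ℝ) + 1)) := by
          rw [Real.log_div hn0.ne' hn1.ne', hv, hu]
          push_cast
          ring
        rw [h5]
        have h6 := Real.log_le_sub_one_of_pos (show 0 < (n : ℝ) / ((n : ℝ) + 1) by positivity)
        have h7 : (n : ℝ) / ((n : ℝ) + 1) - 1 = -(1 / ((n : ℝ) + 1)) := by field_simp; ring
        linarith
      have hu0 : 0 < u := by linarith
      have hv0 : 0 < v := by linarith
      have htel : (v - u) / v ^ (U + 2) ≤ 1 / u ^ (U + 1) - 1 / v ^ (U + 1) := by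
        rw [div_sub_div _ _ (by positivity) (by positivity), div_le_div_iff₀ (by positivity) (by positivity)]
        have h8 : u ^ (U + 1) ≤ v ^ U * u := by
          rw [pow_succ]
          exact mul_le_mul_of_nonneg_right (pow_le_pow_left₀ hu0.le huv _) hu0.le
        have h9 : (v - u) * v ^ U ≤ v ^ (U + 1) - u ^ (U + 1) := by
          rw [pow_succ v U]
          nlinarith
        have h10 : (v - u) * (u ^ (U + 1) * v ^ (U + 1)) ≤ (v - u) * v ^ U * v ^ (U + 2) := by
          have h11 : u ^ (U + 1) * v ^ (U + 1) ≤ v ^ U * v ^ (U + 2) := by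
            calc u ^ (U + 1) * v ^ (U + 1) ≤ v ^ (U + 1) * v ^ (U + 1) :=
                  mul_le_mul_of_nonneg_right (pow_le_pow_left₀ hu0.le huv _) (by positivity)
              _ = v ^ U * v ^ (U + 2) := by ring
          nlinarith [sub_nonneg.2 huv]
        have h12 : (v - u) * v ^ U * v ^ (U + 2) ≤ (v ^ (U + 1) - u ^ (U + 1)) * v ^ (U + 2) :=
          mul_le_mul_of_nonneg_right h9 (by positivity)
        have h13 : (1 * v ^ (U + 1) - u ^ (U + 1) * 1) * v ^ (U + 2) =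
          (v ^ (U + 1) - u ^ (U + 1)) * v ^ (U + 2) := by ring
        rw [h13]
        exact h10.trans h12
      have hAn := hAb n (by omega)
      calc ‖A n‖ * (1 / (n * ((n : ℝ) + 1))) ≤ D * (n / u ^ (U + 2)) * (1 / (n * ((n : ℝ) + 1))) :=
            mul_le_mul_of_nonneg_right hAn (by positivity)
        _ = D * (1 / ((n : ℝ) + 1)) / u ^ (U + 2) := by field_simp
        _ ≤ D * (v - u) / u ^ (U + 2) := by
            apply div_le_div_of_nonneg_right _ (by positivity)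
            exact mul_le_mul_of_nonneg_left hdiff (by linarith)
        _ ≤ D * (v - u) * (2 ^ (U + 2) / v ^ (U + 2)) := by
            rw [div_eq_mul_one_div]
            apply mul_le_mul_of_nonneg_left _ (mul_nonneg (by linarith) (by linarith))
            rw [div_le_div_iff₀ (by positivity) (by positivity), one_mul, ← mul_pow]
            exact pow_le_pow_left₀ hv0.le hv2 _
        _ = 2 ^ (U + 2) * D * ((v - u) / v ^ (U + 2)) := by ring
        _ ≤ 2 ^ (U + 2) * D * (1 / u ^ (U + 1) - 1 / v ^ (U + 1)) :=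
            mul_le_mul_of_nonneg_left htel (by positivity)
    refine (norm_sum_le _ _).trans ((sum_le_sum hone).trans ?_)
    rw [← mul_sum]
    have h14 : ∑ i ∈ range d, (1 / Real.log ((K + i : ℕ) : ℝ) ^ (U + 1) -
          1 / Real.log ((K + (i + 1) : ℕ) : ℝ) ^ (U + 1)) =
        1 / Real.log ((K + 0 : ℕ) : ℝ) ^ (U + 1) - 1 / Real.log ((K + d : ℕ) : ℝ) ^ (U + 1) :=
      sum_range_sub' (fun i => 1 / Real.log ((K + i : ℕ) : ℝ) ^ (U + 1)) d
    rw [h14, add_zero]
    have h15 : 0 ≤ 1 / Real.log ((K + d : ℕ) : ℝ) ^ (U + 1) := by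
      have := hlog1 (K + d) (by omega)
      positivity
    have h17 : 1 / Real.log (K : ℝ) ^ (U + 1) - 1 / Real.log ((K + d : ℕ) : ℝ) ^ (U + 1) ≤
      1 / Real.log (K : ℝ) ^ (U + 1) := by linarith
    rw [div_eq_mul_one_div (2 ^ (U + 2) * D)]
    exact mul_le_mul_of_nonneg_left h17 (by positivity)
  have h1 := hquot (K + d) (by omega)
  have h2 := hquot K le_rfl
  refine (norm_add_le _ _).trans ?_
  have h3 := norm_sub_le (A (K + d) / ((K + d : ℕ) : ℂ)) (A K / (K : ℂ))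
  have e : (2 * D + 2 ^ (U + 2) * D) / Real.log K ^ (U + 1) =
      D / Real.log K ^ (U + 1) + D / Real.log K ^ (U + 1) + 2 ^ (U + 2) * D / Real.log K ^ (U + 1) := by
    ring
  rw [e]
  linarith

end Pool.Agent.U798.MN
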