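import Mathlib
import Pool.Agent.H807R2.Dav1

/-! Uniqueness of Fourier coefficients for bounded functions on the unit interval. -/

set_option autoImplicit false

open Finset MeasureTheory Filter Topology
open Pool.Agent.H807R2.Dav
open scoped Real

namespace Pool.Agent.U798.MN

lemma fourier_coe_eq (n : ℤ) (x : ℝ) : (fourier n (x : UnitAddCircle) : ℂ) = ee (n * x) := by
  rw [fourier_coe_apply]
  unfold ee
  congr 1
  push_cast
  ring

theorem fourier_unique (G : ℝ → ℂ) (hm : Measurable G) (B : ℝ) (hB : ∀ x, ‖G x‖ ≤ B)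
    (h0 : ∀ n : ℤ, ∫ x in (0 : ℝ)..1, ee (-(n * x)) * G x = 0) :
    ∀ᵐ x ∂(volume.restrict (Set.Ioc (0 : ℝ) 1)), G x = 0 := by
  set F : UnitAddCircle → ℂ := AddCircle.liftIoc 1 0 G with hF
  have hFm : Measurable F := by
    have h1 : F = (Set.domRestrict (Set.Ioc (0 : ℝ) (0 + 1)) G) ∘ (AddCircle.measurableEquivIoc 1 0) := rfl
    rw [h1]
    exact (hm.comp measurable_subtype_coe).comp (AddCircle.measurableEquivIoc 1 0).measurable
  have hFB : ∀ z, ‖F z‖ ≤ B := by
    intro z
    obtain ⟨x, hx, rfl⟩ : ∃ x : ℝ, x ∈ Set.Ioc (0 : ℝ) (0 + 1) ∧ (x : UnitAddCircle) = z := by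
      refine ⟨(AddCircle.equivIoc 1 0 z : ℝ), (AddCircle.equivIoc 1 0 z).2, ?_⟩
      exact (AddCircle.equivIoc 1 0).symm_apply_apply z
    rw [hF, AddCircle.liftIoc_coe_apply hx]
    exact hB x
  have hFp : MemLp F 2 (AddCircle.haarAddCircle (T := (1 : ℝ))) :=
    MemLp.of_bound hFm.aestronglyMeasurable B (Eventually.of_forall hFB)
  set f := hFp.toLp F with hf
  have hcoef : ∀ n : ℤ, fourierCoeff (T := (1 : ℝ)) (f : UnitAddCircle → ℂ) n = 0 := by
    intro n
    have h1 : (f : UnitAddCircle → ℂ) =ᵐ[AddCircle.haarAddCircle] F := hFp.coeFn_toLp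
    rw [fourierCoeff_congr_ae h1, fourierCoeff_eq_intervalIntegral F n 0]
    have h2 : ∫ x in (0 : ℝ)..0 + 1, @fourier 1 (-n) x • F x = ∫ x in (0 : ℝ)..1, ee (-(n * x)) * G x := by
      rw [zero_add]
      apply intervalIntegral.integral_congr_ae
      refine Eventually.of_forall fun x hx => ?_
      rw [Set.uIoc_of_le zero_le_one] at hx
      rw [smul_eq_mul, fourier_coe_eq, hF, AddCircle.liftIoc_coe_apply (by rwa [zero_add])]
      congr 2
      push_cast
      ring
    rw [h2, h0 n, smul_zero]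
  have hf0 : f = 0 := by
    apply (fourierBasis (T := (1 : ℝ))).repr.injective
    rw [map_zero]
    ext n
    rw [fourierBasis_repr, hcoef n]
    rfl
  have hF0 : F =ᵐ[AddCircle.haarAddCircle] 0 := by
    have h1 : (f : UnitAddCircle → ℂ) =ᵐ[AddCircle.haarAddCircle] F := hFp.coeFn_toLp
    have h2 : (f : UnitAddCircle → ℂ) =ᵐ[AddCircle.haarAddCircle] 0 := by
      rw [hf0]
      exact Lp.coeFn_zero _ _ _
    exact h1.symm.trans h2
  have hvol : F =ᵐ[(volume : Measure UnitAddCircle)] 0 := by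
    have : (volume : Measure UnitAddCircle) = ENNReal.ofReal 1 • AddCircle.haarAddCircle :=
      AddCircle.volume_eq_smul_haarAddCircle
    rw [this]
    exact Measure.ae_smul_measure hF0 _
  have hpb := (AddCircle.measurePreserving_mk 1 0).quasiMeasurePreserving.ae hvol
  rw [zero_add] at hpb
  filter_upwards [hpb, ae_restrict_mem measurableSet_Ioc] with x hx hx2
  have h3 : F (x : UnitAddCircle) = G x := by
    rw [hF, AddCircle.liftIoc_coe_apply (by rwa [zero_add])]
  rw [← h3]
  exact hx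

end Pool.Agent.U798.MN
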