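import Pool.Agent.U798.MN.C
import Pool.Agent.U798.MN.D1

/-! Fourier coefficients of `y ↦ saw (k y + θ)` and of the digit functions. -/

set_option autoImplicit false

open Finset MeasureTheory Filter Topology
open Pool.Agent.H807R2.Dav
open Pool.Agent.H373R2.T7 (muR muR_abs orth)
open scoped Real

namespace Pool.Agent.U798.MN

lemma measurable_saw : Measurable saw := by
  unfold saw
  exact measurable_fract.sub_const _

lemma continuous_ee : Continuous ee := by
  unfold ee
  fun_prop

lemma saw_add_one (t : ℝ) : saw (t + 1) = saw t := by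
  have := saw_add_int t 1
  simpa using this

lemma ee_add_one (t : ℝ) : ee (t + 1) = ee t := by
  have := ee_add_int t 1
  simpa using this

/-- the basic integral -/
lemma int_saw (m : ℤ) :
    ∫ u in (0 : ℝ)..1, ee (-(m * u)) * ((saw u : ℝ) : ℂ) = -1 / (2 * π * Complex.I * m) := by
  have h1 : ∫ u in (0 : ℝ)..1, ee (-(m * u)) * ((saw u : ℝ) : ℂ) =
      ∫ u in (0 : ℝ)..1, fourier (-m) (u : AddCircle ((1 : ℝ) - 0)) • ((bernoulliFun 1 u : ℝ) : ℂ) := by
    apply intervalIntegral.integral_congr_ae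
    have : ∀ᵐ u : ℝ ∂volume, u ≠ 1 := by
      exact (measure_eq_zero_iff_ae_notMem.1 (Real.volume_singleton (a := (1 : ℝ)))).mono (fun u hu => hu)
    filter_upwards [this] with u hu hu2
    rw [Set.uIoc_of_le zero_le_one] at hu2
    have hu3 : u < 1 := lt_of_le_of_ne hu2.2 hu
    have e1 : saw u = u - 1 / 2 := by
      unfold saw
      rw [Int.fract_eq_self.2 ⟨hu2.1.le, hu3⟩]
    have e2 : bernoulliFun 1 u = u - 1 / 2 := bernoulliFun_one u
    rw [e1, e2, smul_eq_mul]
    congr 1
    rw [fourier_coe_apply]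
    unfold ee
    congr 1
    push_cast
    ring
  have h2 := bernoulliFourierCoeff_eq (k := 1) one_ne_zero m
  unfold bernoulliFourierCoeff at h2
  rw [fourierCoeffOn_eq_integral] at h2
  rw [h1]
  simp only [sub_zero, div_one, one_smul, Nat.factorial_one, Nat.cast_one, pow_one] at h2 ⊢
  convert h2 using 1

lemma int_shift (f : ℝ → ℂ) (hf : Function.Periodic f 1) (a : ℝ) :
    ∫ u in (0 : ℝ)..1, f (u + a) = ∫ u in (0 : ℝ)..1, f u := by
  rw [intervalIntegral.integral_comp_add_right]
  have h := hf.intervalIntegral_add_eq a 0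
  rw [zero_add] at h
  rw [zero_add, add_comm 1 a]
  exact h

lemma ii_bdd (f : ℝ → ℂ) (hm : Measurable f) (B : ℝ) (hB : ∀ x, ‖f x‖ ≤ B) (a b : ℝ) :
    IntervalIntegrable f volume a b := by
  rw [intervalIntegrable_iff]
  exact Measure.integrableOn_of_bounded (by
    rw [Set.uIoc]
    exact measure_Ioc_lt_top.ne) hm.aestronglyMeasurable (Eventually.of_forall hB)

lemma int_dil (f : ℝ → ℂ) (hf : Function.Periodic f 1)
    (hi : ∀ t₁ t₂ : ℝ, IntervalIntegrable f volume t₁ t₂) (k : ℕ) (hk : 1 ≤ k) :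
    ∫ u in (0 : ℝ)..1, f (k * u) = ∫ u in (0 : ℝ)..1, f u := by
  have hk0 : (k : ℝ) ≠ 0 := by
    have : k ≠ 0 := by omega
    exact_mod_cast this
  rw [intervalIntegral.integral_comp_mul_left _ hk0]
  have h' : ∫ x in (0 : ℝ)..(0 + (k : ℤ) • (1 : ℝ)), f x = (k : ℤ) • ∫ x in (0 : ℝ)..(0 + 1), f x :=
    hf.intervalIntegral_add_zsmul_eq k 0 hi
  simp only [zero_add, zsmul_eq_mul, Int.cast_natCast, mul_one] at h'
  rw [mul_zero, mul_one, h']
  rw [Complex.real_smul]
  push_cast
  rw [← mul_assoc, inv_mul_cancel₀ (by exact_mod_cast hk0), one_mul]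

lemma int_saw_phase (m : ℤ) (θ : ℝ) :
    ∫ u in (0 : ℝ)..1, ee (-(m * u)) * ((saw (u + θ) : ℝ) : ℂ) =
      ee (m * θ) * (-1 / (2 * π * Complex.I * m)) := by
  have hper : Function.Periodic (fun u : ℝ => ee (-(m * u)) * ((saw u : ℝ) : ℂ)) 1 := by
    intro u
    simp only
    rw [saw_add_one]
    congr 1
    have : -((m : ℝ) * (u + 1)) = -(m * u) + ((-m : ℤ) : ℝ) := by push_cast; ring
    rw [this, ee_add_int]
  have h1 := int_shift _ hper θ
  rw [int_saw] at h1
  rw [← h1, ← intervalIntegral.integral_const_mul]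
  apply intervalIntegral.integral_congr
  intro u _
  simp only
  rw [← mul_assoc, ← ee_add]
  congr 2
  ring

lemma int_saw_gen (n : ℤ) (k : ℕ) (hk : 1 ≤ k) (θ : ℝ) :
    ∫ u in (0 : ℝ)..1, ee (-(n * u)) * ((saw (k * u + θ) : ℝ) : ℂ) =
      if (k : ℤ) ∣ n then ee (((n / k : ℤ) : ℝ) * θ) * (-1 / (2 * π * Complex.I * ((n / k : ℤ) : ℂ)))
      else 0 := by
  have hk0 : (k : ℝ) ≠ 0 := by
    have : k ≠ 0 := by omega
    exact_mod_cast this
  split_ifs with h
  · obtain ⟨m, rfl⟩ := h
    have hkz : (k : ℤ) ≠ 0 := by omega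
    rw [Int.mul_ediv_cancel_left _ hkz]
    have hper : Function.Periodic (fun u : ℝ => ee (-(m * u)) * ((saw (u + θ) : ℝ) : ℂ)) 1 := by
      intro u
      simp only
      rw [show u + 1 + θ = (u + θ) + 1 by ring, saw_add_one]
      congr 1
      have : -((m : ℝ) * (u + 1)) = -(m * u) + ((-m : ℤ) : ℝ) := by push_cast; ring
      rw [this, ee_add_int]
    have hi : ∀ t₁ t₂ : ℝ, IntervalIntegrable
        (fun u : ℝ => ee (-(m * u)) * ((saw (u + θ) : ℝ) : ℂ)) volume t₁ t₂ := by
      intro t₁ t₂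
      refine ii_bdd _ ?_ 1 (fun x => ?_) t₁ t₂
      · exact (continuous_ee.measurable.comp (by fun_prop)).mul
          (Complex.measurable_ofReal.comp (measurable_saw.comp (by fun_prop)))
      · rw [norm_mul, norm_ee, one_mul, Complex.norm_real, Real.norm_eq_abs]
        have := abs_saw_le (x + θ)
        linarith
    have h1 := int_dil _ hper hi k hk
    rw [int_saw_phase] at h1
    rw [← h1]
    apply intervalIntegral.integral_congr
    intro u _
    simp only
    congr 2
    push_cast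
    ring
  · set I := ∫ u in (0 : ℝ)..1, ee (-(n * u)) * ((saw (k * u + θ) : ℝ) : ℂ) with hI
    have hper : Function.Periodic (fun u : ℝ => ee (-(n * u)) * ((saw (k * u + θ) : ℝ) : ℂ)) 1 := by
      intro u
      simp only
      have e1 : (k : ℝ) * (u + 1) + θ = (k * u + θ) + ((k : ℤ) : ℝ) := by push_cast; ring
      rw [e1, saw_add_int]
      congr 1
      have : -((n : ℝ) * (u + 1)) = -(n * u) + ((-n : ℤ) : ℝ) := by push_cast; ring
      rw [this, ee_add_int]
    have h1 := int_shift _ hper (1 / k)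
    rw [← hI] at h1
    have h2 : ∫ u in (0 : ℝ)..1, ee (-(n * (u + 1 / k))) * ((saw (k * (u + 1 / k) + θ) : ℝ) : ℂ) =
        ee (-(n / k)) * I := by
      rw [hI, ← intervalIntegral.integral_const_mul]
      apply intervalIntegral.integral_congr
      intro u _
      simp only
      have e1 : (k : ℝ) * (u + 1 / k) + θ = (k * u + θ) + 1 := by field_simp; ring
      rw [e1, saw_add_one, ← mul_assoc, ← ee_add]
      congr 2
      ring
    rw [h2] at h1
    have h3 : ee (-(n / k)) ≠ 1 := by
      intro hc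
      unfold ee at hc
      rw [Complex.exp_eq_one_iff] at hc
      obtain ⟨j, hj⟩ := hc
      apply h
      have hpi : (2 * (π : ℂ) * Complex.I) ≠ 0 := by
        simp [Real.pi_ne_zero]
      have h4 : ((-(n / k) : ℝ) : ℂ) = (j : ℂ) := by
        apply mul_left_cancel₀ hpi
        rw [hj]
        ring
      have h5 : (-((n : ℝ) / k)) = (j : ℝ) := by exact_mod_cast h4
      have h6 : (n : ℝ) = (k : ℝ) * (-j : ℝ) := by
        field_simp at h5
        linarith
      exact ⟨-j, by exact_mod_cast h6⟩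
    have h4 : (ee (-(n / k)) - 1) * I = 0 := by
      rw [sub_mul, h1]; ring
    rcases mul_eq_zero.1 h4 with h5 | h5
    · exact absurd (sub_eq_zero.1 h5) h3
    · exact h5

end Pool.Agent.U798.MN
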