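import Pool.Agent.U798.MN.D2

/-! Fourier coefficients of the partial sums of the series. -/

set_option autoImplicit false

open Finset MeasureTheory Filter Topology
open Pool.Agent.H807R2.Dav
open Pool.Agent.H373R2.T7 (muR muR_abs orth)
open scoped Real

namespace Pool.Agent.U798.MN

variable {b : ℕ}

lemma wt_sum (hb : 1 ≤ b) (χ : DirichletCharacter ℂ b) (m : ℤ) :
    ∑ j ∈ range b, wt χ j * ee (m * (j / b)) = -χ (m : ZMod b) := by
  have hb0 : (b : ℂ) ≠ 0 := by
    have : b ≠ 0 := by omega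
    exact_mod_cast this
  have hbz : (0 : ℤ) < b := by omega
  have h1 : ∑ j ∈ range b, wt χ j * ee (m * (j / b)) =
      -(1 / (b : ℂ)) * ∑ m' ∈ range b, χ (m' : ZMod b) *
        ∑ j ∈ range b, ee ((j : ℝ) * (((m - (m' : ℤ) : ℤ) : ℝ) / b)) := by
    rw [mul_sum]
    simp_rw [mul_sum]
    rw [sum_comm]
    refine sum_congr rfl fun j _ => ?_
    unfold wt
    rw [mul_assoc, sum_mul, mul_sum]
    refine sum_congr rfl fun m' _ => ?_
    have e : ee (-((m' : ℝ) * j / b)) * ee (m * (j / b)) =
        ee ((j : ℝ) * (((m - (m' : ℤ) : ℤ) : ℝ) / b)) := by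
      rw [← ee_add]
      congr 1
      push_cast
      ring
    rw [← e]
    ring
  rw [h1]
  have h2 : ∀ m' ∈ range b, χ (m' : ZMod b) *
        ∑ j ∈ range b, ee ((j : ℝ) * (((m - (m' : ℤ) : ℤ) : ℝ) / b)) =
      if m' = (m % b).toNat then (b : ℂ) * χ (m : ZMod b) else 0 := by
    intro m' hm'
    rw [mem_range] at hm'
    rw [orth b hb]
    have h3 : ((b : ℤ) ∣ m - m') ↔ m' = (m % b).toNat := by
      have h4 := Int.emod_nonneg m hbz.ne'
      have h5 := Int.emod_lt_of_pos m hbz
      constructor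
      · intro h
        have h6 : m % b = (m' : ℤ) % b := (Int.emod_emod_of_dvd m (dvd_refl _)) ▸
          (Int.emod_emod_of_dvd m (dvd_refl _)).symm ▸ ((Int.emod_eq_emod_iff_emod_sub_eq_zero).2
            (Int.emod_eq_zero_of_dvd h))
        have h7 : (m' : ℤ) % b = m' := Int.emod_eq_of_lt (by omega) (by omega)
        omega
      · intro h
        have h6 : (m' : ℤ) = m % b := by omega
        rw [h6]
        exact Int.dvd_self_sub_emod
    by_cases h : m' = (m % b).toNat
    · rw [if_pos h, if_pos (h3.2 h)]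
      have h6 : (m' : ZMod b) = (m : ZMod b) := by
        have h7 : ((m' : ℤ) : ZMod b) = (m : ZMod b) := by
          rw [ZMod.intCast_eq_intCast_iff_dvd_sub]
          exact h3.2 h
        exact_mod_cast h7
      rw [h6]
      ring
    · rw [if_neg h, if_neg (fun hc => h (h3.1 hc)), mul_zero]
  rw [sum_congr rfl h2, sum_ite_eq', if_pos]
  · field_simp
  · rw [mem_range]
    have h4 := Int.emod_nonneg m hbz.ne'
    have h5 := Int.emod_lt_of_pos m hbz
    omega

lemma measurable_dig (χ : DirichletCharacter ℂ b) : Measurable (dig χ) := by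
  unfold dig
  refine Finset.measurable_sum _ fun j _ => ?_
  exact measurable_const.mul (Complex.measurable_ofReal.comp (measurable_saw.comp (by fun_prop)))

lemma measurable_ser (χ : DirichletCharacter ℂ b) (K : ℕ) : Measurable (ser χ K) := by
  unfold ser term
  refine Finset.measurable_sum _ fun k _ => ?_
  exact (measurable_const.mul ((measurable_dig χ).comp (by fun_prop))).div_const _

lemma int_dig (hb : 1 ≤ b) (χ : DirichletCharacter ℂ b) (n : ℤ) (k : ℕ) (hk : 1 ≤ k) :
    ∫ u in (0 : ℝ)..1, ee (-(n * u)) * dig χ (k * u) =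
      if (k : ℤ) ∣ n then χ ((n / k : ℤ) : ZMod b) / (2 * π * Complex.I * ((n / k : ℤ) : ℂ)) else 0 := by
  have h1 : ∫ u in (0 : ℝ)..1, ee (-(n * u)) * dig χ (k * u) =
      ∑ j ∈ range b, wt χ j * ∫ u in (0 : ℝ)..1, ee (-(n * u)) * ((saw (k * u + j / b) : ℝ) : ℂ) := by
    have e : ∀ u : ℝ, ee (-(n * u)) * dig χ (k * u) =
        ∑ j ∈ range b, wt χ j * (ee (-(n * u)) * ((saw (k * u + j / b) : ℝ) : ℂ)) := by
      intro u
      unfold dig
      rw [mul_sum]
      refine sum_congr rfl fun j _ => ?_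
      ring
    simp_rw [e]
    rw [intervalIntegral.integral_finsetSum]
    · refine sum_congr rfl fun j _ => ?_
      rw [intervalIntegral.integral_const_mul]
    · intro j _
      apply IntervalIntegrable.const_mul
      refine ii_bdd _ ?_ 1 (fun x => ?_) _ _
      · exact (continuous_ee.measurable.comp (by fun_prop)).mul
          (Complex.measurable_ofReal.comp (measurable_saw.comp (by fun_prop)))
      · rw [norm_mul, norm_ee, one_mul, Complex.norm_real, Real.norm_eq_abs]
        have := abs_saw_le (k * x + j / b)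
        linarith
  rw [h1]
  have h2 : ∀ j ∈ range b, wt χ j * ∫ u in (0 : ℝ)..1, ee (-(n * u)) * ((saw (k * u + j / b) : ℝ) : ℂ) =
      if (k : ℤ) ∣ n then (wt χ j * ee (((n / k : ℤ) : ℝ) * (j / b))) *
        (-1 / (2 * π * Complex.I * ((n / k : ℤ) : ℂ))) else 0 := by
    intro j _
    rw [int_saw_gen n k hk]
    split_ifs with h
    · ring
    · ring
  rw [sum_congr rfl h2]
  split_ifs with h
  · rw [← sum_mul, wt_sum hb]
    ring
  · simp

lemma sum_muR (n : ℤ) (hn : n ≠ 0) (K : ℕ) (hK : n.natAbs ≤ K) :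
    ∑ k ∈ (Icc 1 K).filter (fun k : ℕ => (k : ℤ) ∣ n), muR k = if n.natAbs = 1 then 1 else 0 := by
  have h1 : (Icc 1 K).filter (fun k : ℕ => (k : ℤ) ∣ n) = n.natAbs.divisors := by
    ext k
    rw [mem_filter, mem_Icc, Nat.mem_divisors]
    constructor
    · rintro ⟨⟨h2, h3⟩, h4⟩
      exact ⟨Int.natCast_dvd.1 h4, Int.natAbs_ne_zero.2 hn⟩
    · rintro ⟨h2, h3⟩
      refine ⟨⟨Nat.pos_of_dvd_of_pos h2 (Nat.pos_of_ne_zero h3), ?_⟩, Int.natCast_dvd.2 h2⟩
      exact (Nat.le_of_dvd (Nat.pos_of_ne_zero h3) h2).trans hK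
  rw [h1]
  have h2 : ∑ i ∈ n.natAbs.divisors, ArithmeticFunction.moebius i = if n.natAbs = 1 then 1 else 0 := by
    rw [← ArithmeticFunction.coe_mul_zeta_apply, ArithmeticFunction.moebius_mul_coe_zeta,
      ArithmeticFunction.one_apply]
  unfold muR
  have h3 := congrArg (fun z : ℤ => (z : ℝ)) h2
  push_cast at h3
  exact h3

lemma int_ser (hb : 1 ≤ b) (χ : DirichletCharacter ℂ b) (n : ℤ) (K : ℕ) (hK : n.natAbs ≤ K) :
    ∫ u in (0 : ℝ)..1, ee (-(n * u)) * ser χ K u =
      if n.natAbs = 1 then χ (n : ZMod b) / (2 * π * Complex.I * n) else 0 := by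
  have h1 : ∫ u in (0 : ℝ)..1, ee (-(n * u)) * ser χ K u =
      ∑ k ∈ Icc 1 K, ((muR k : ℝ) : ℂ) * χ (k : ZMod b) / k *
        ∫ u in (0 : ℝ)..1, ee (-(n * u)) * dig χ (k * u) := by
    have e : ∀ u : ℝ, ee (-(n * u)) * ser χ K u =
        ∑ k ∈ Icc 1 K, ((muR k : ℝ) : ℂ) * χ (k : ZMod b) / k * (ee (-(n * u)) * dig χ (k * u)) := by
      intro u
      unfold ser term
      rw [mul_sum]
      refine sum_congr rfl fun k _ => ?_
      ring
    simp_rw [e]
    rw [intervalIntegral.integral_finsetSum]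
    · refine sum_congr rfl fun k _ => ?_
      rw [intervalIntegral.integral_const_mul]
    · intro k _
      apply IntervalIntegrable.const_mul
      refine ii_bdd _ ?_ b (fun x => ?_) _ _
      · exact (continuous_ee.measurable.comp (by fun_prop)).mul ((measurable_dig χ).comp (by fun_prop))
      · rw [norm_mul, norm_ee, one_mul]
        exact norm_dig χ _
  rw [h1]
  have h2 : ∀ k ∈ Icc 1 K, ((muR k : ℝ) : ℂ) * χ (k : ZMod b) / k *
        ∫ u in (0 : ℝ)..1, ee (-(n * u)) * dig χ (k * u) =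
      if (k : ℤ) ∣ n then (((muR k : ℝ) : ℂ)) * (χ (n : ZMod b) / (2 * π * Complex.I * n)) else 0 := by
    intro k hk
    rw [mem_Icc] at hk
    have hk0 : (k : ℂ) ≠ 0 := by
      have : k ≠ 0 := by omega
      exact_mod_cast this
    have hkz : (k : ℤ) ≠ 0 := by omega
    rw [int_dig hb χ n k hk.1]
    split_ifs with h
    · obtain ⟨m, rfl⟩ := h
      rw [Int.mul_ediv_cancel_left _ hkz]
      push_cast
      rw [map_mul]
      rcases eq_or_ne m 0 with hm | hm
      · subst hm; simp
      · have hm0 : (m : ℂ) ≠ 0 := by exact_mod_cast hm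
        have hpi : (π : ℂ) ≠ 0 := by exact_mod_cast Real.pi_ne_zero
        field_simp
    · ring
  rw [sum_congr rfl h2, ← sum_filter, ← sum_mul]
  rcases eq_or_ne n 0 with hn | hn
  · subst hn; simp
  · have h3 := sum_muR n hn K hK
    have h4 : ∑ k ∈ (Icc 1 K).filter (fun k : ℕ => (k : ℤ) ∣ n), ((muR k : ℝ) : ℂ) =
        if n.natAbs = 1 then 1 else 0 := by
      rw [← Complex.ofReal_sum, h3]
      split_ifs <;> simp
    rw [h4]
    split_ifs <;> ring

/-- the limit of the series -/
noncomputable def tgt (χ : DirichletCharacter ℂ b) (y : ℝ) : ℂ :=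
  1 / (2 * π * Complex.I) * (ee y - χ (-1) * ee (-y))

lemma int_ee (n : ℤ) : ∫ u in (0 : ℝ)..1, ee (n * u) = if n = 0 then 1 else 0 := by
  split_ifs with h
  · subst h
    simp [ee_zero]
  · have hc : (2 * π * Complex.I * n : ℂ) ≠ 0 := by
      have : (n : ℂ) ≠ 0 := by exact_mod_cast h
      have hpi : (π : ℂ) ≠ 0 := by exact_mod_cast Real.pi_ne_zero
      simp [this, hpi]
    have e : ∀ u : ℝ, ee (n * u) = Complex.exp ((2 * π * Complex.I * n : ℂ) * u) := by
      intro u
      unfold ee
      congr 1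
      push_cast
      ring
    simp_rw [e]
    rw [integral_exp_mul_complex hc]
    have h1 : Complex.exp ((2 * π * Complex.I * n : ℂ) * ((1 : ℝ) : ℂ)) = 1 := by
      rw [← e 1, mul_one]
      exact ee_int n
    rw [h1]
    simp

lemma int_tgt (χ : DirichletCharacter ℂ b) (n : ℤ) :
    ∫ u in (0 : ℝ)..1, ee (-(n * u)) * tgt χ u =
      if n.natAbs = 1 then χ (n : ZMod b) / (2 * π * Complex.I * n) else 0 := by
  have e : ∀ u : ℝ, ee (-(n * u)) * tgt χ u = 1 / (2 * π * Complex.I) * ee (((1 - n : ℤ) : ℝ) * u) -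
      1 / (2 * π * Complex.I) * χ (-1) * ee (((-1 - n : ℤ) : ℝ) * u) := by
    intro u
    unfold tgt
    have e1 : ee (((1 - n : ℤ) : ℝ) * u) = ee (-(n * u)) * ee u := by
      rw [← ee_add]; congr 1; push_cast; ring
    have e2 : ee (((-1 - n : ℤ) : ℝ) * u) = ee (-(n * u)) * ee (-u) := by
      rw [← ee_add]; congr 1; push_cast; ring
    rw [e1, e2]
    ring
  simp_rw [e]
  rw [intervalIntegral.integral_sub, intervalIntegral.integral_const_mul,
    intervalIntegral.integral_const_mul, int_ee, int_ee]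
  · by_cases h1 : n = 1
    · subst h1
      simp
    · by_cases h2 : n = -1
      · subst h2
        have hpi : (π : ℂ) ≠ 0 := by exact_mod_cast Real.pi_ne_zero
        rw [if_neg (by norm_num), if_pos (by norm_num), if_pos (by norm_num)]
        push_cast
        field_simp
        ring
      · have h3 : n.natAbs ≠ 1 := by omega
        rw [if_neg (by omega), if_neg (by omega), if_neg h3]
        ring
  · apply Continuous.intervalIntegrable
    exact continuous_const.mul (continuous_ee.comp (by fun_prop))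
  · apply Continuous.intervalIntegrable
    exact continuous_const.mul (continuous_ee.comp (by fun_prop))

end Pool.Agent.U798.MN
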