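import Pool.Agent.U798.MN.D4
import Pool.Agent.R485.Trans.Saw

/-! From the digit frequencies of all multiples to the exponential sums. -/

set_option autoImplicit false

open Finset MeasureTheory Filter Topology
open Pool.Agent.H807R2.Dav
open Pool.Agent.H373R2.T7 (muR muR_abs orth)
open Pool.Agent.R485.Trans (indicator_eq)
open scoped Real

namespace Pool.Agent.U798.MN

variable {b : ℕ}

/-- the number of `n < N` for which the fractional part of `x b ^ n` lies in `[s, t)` -/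
noncomputable def vis (b : ℕ) (x s t : ℝ) (N : ℕ) : ℕ :=
  ((range N).filter fun n : ℕ =>
    s ≤ Int.fract (x * (b : ℝ) ^ n) ∧ Int.fract (x * (b : ℝ) ^ n) < t).card

lemma vis_cast (b : ℕ) (x s t : ℝ) (N : ℕ) : (vis b x s t N : ℝ) =
    ∑ n ∈ range N, (if s ≤ Int.fract (x * (b : ℝ) ^ n) ∧ Int.fract (x * (b : ℝ) ^ n) < t
      then (1 : ℝ) else 0) := by
  unfold vis
  rw [sum_boole]

/-- the frequencies of all digits of `x` up to `N` are `1 / b` up to the error `δ` -/
def DigNear (b : ℕ) (δ x : ℝ) (N : ℕ) : Prop := ∀ d : ℕ, d < b →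
  |(vis b x ((d : ℝ) / b) (((d : ℝ) + 1) / b) N : ℝ) - N / b| ≤ δ * N

theorem exists_odd (hb : 3 ≤ b) : ∃ χ : DirichletCharacter ℂ b, χ (-1) = -1 := by
  have : NeZero b := ⟨by omega⟩
  have h1 : (-1 : ZMod b) ≠ 1 := by
    intro h
    have h2 : ((2 : ℕ) : ZMod b) = 0 := by
      push_cast
      have : (2 : ZMod b) = 1 - (-1) := by ring
      rw [this, h, sub_self]
    rw [ZMod.natCast_eq_zero_iff] at h2
    have := Nat.le_of_dvd (by norm_num) h2
    omega
  obtain ⟨χ, hχ⟩ := MulChar.exists_apply_ne_one_of_hasEnoughRootsOfUnity (ZMod b) ℂ h1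
  refine ⟨χ, ?_⟩
  have h3 : χ (-1) * χ (-1) = 1 := by
    rw [← map_mul]
    simp
  have h4 : (χ (-1) - 1) * (χ (-1) + 1) = 0 := by
    linear_combination h3
  rcases mul_eq_zero.1 h4 with h | h
  · exact absurd (sub_eq_zero.1 h) hχ
  · exact eq_neg_of_add_eq_zero_left h

lemma wt_total (hb : 2 ≤ b) (χ : DirichletCharacter ℂ b) : ∑ j ∈ range b, wt χ j = 0 := by
  have h := wt_sum (by omega) χ 0
  have h0 : χ ((0 : ℤ) : ZMod b) = 0 := by
    have : Fact (1 < b) := ⟨by omega⟩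
    rw [Int.cast_zero]
    exact χ.map_nonunit not_isUnit_zero
  rw [h0, neg_zero] at h
  rw [← h]
  refine sum_congr rfl fun j _ => ?_
  rw [Int.cast_zero, zero_mul, ee_zero, mul_one]

/-- `saw (t + j / b) - saw t` in terms of the digits -/
lemma saw_digit (hb : 2 ≤ b) (j : ℕ) (hj : j < b) (t : ℝ) :
    saw (t + j / b) - saw t = -∑ d ∈ Ico (b - j) b,
      ((if (d : ℝ) / b ≤ Int.fract t ∧ Int.fract t < ((d : ℝ) + 1) / b then (1 : ℝ) else 0) - 1 / b) := by
  have hb0 : (0 : ℝ) < b := by exact_mod_cast (by omega : 0 < b)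
  have key : ∀ i : ℕ, i ≤ b → ∑ d ∈ Ico (b - i) b,
      ((if (d : ℝ) / b ≤ Int.fract t ∧ Int.fract t < ((d : ℝ) + 1) / b then (1 : ℝ) else 0) - 1 / b) =
      saw t - saw (t + i / b) := by
    intro i
    induction i with
    | zero => intro _; simp
    | succ i ih =>
      intro hi
      have h1 : b - i = (b - (i + 1)) + 1 := by omega
      rw [← Finset.sum_Ico_consecutive _ (show b - (i + 1) ≤ b - i by omega) (show b - i ≤ b by omega),
        ih (by omega), h1, Nat.Ico_succ_singleton, sum_singleton]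
      have h2 : ((b - (i + 1) : ℕ) : ℝ) = b - (i + 1) := by
        rw [Nat.cast_sub hi]; push_cast; ring
      rw [h2]
      have h3 := indicator_eq t (((b : ℝ) - (i + 1)) / b) ((((b : ℝ) - (i + 1)) + 1) / b)
        (by
          apply div_nonneg _ hb0.le
          have : ((i + 1 : ℕ) : ℝ) ≤ b := by exact_mod_cast hi
          push_cast at this
          linarith)
        (by apply div_lt_div_of_pos_right _ hb0; linarith)
        (by
          rw [div_le_one hb0]
          have : (0 : ℝ) ≤ i := Nat.cast_nonneg i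
          linarith)
      have e1 : ((((b : ℝ) - (i + 1)) + 1) / b - ((b : ℝ) - (i + 1)) / b) = 1 / b := by
        field_simp; ring
      rw [e1] at h3
      rw [h3]
      have e2 : Int.fract (t - ((((b : ℝ) - (i + 1)) + 1) / b)) = Int.fract (t + i / b) := by
        have : t - ((((b : ℝ) - (i + 1)) + 1) / b) = (t + i / b) + ((-1 : ℤ) : ℝ) := by
          push_cast; field_simp; ring
        rw [this, Int.fract_add_intCast]
      have e3 : Int.fract (t - (((b : ℝ) - (i + 1)) / b)) = Int.fract (t + ((i + 1 : ℕ) : ℝ) / b) := by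
        have : t - (((b : ℝ) - (i + 1)) / b) = (t + ((i + 1 : ℕ) : ℝ) / b) + ((-1 : ℤ) : ℝ) := by
          push_cast; field_simp; ring
        rw [this, Int.fract_add_intCast]
      rw [e2, e3]
      unfold saw
      ring
  have := key j hj.le
  linarith

lemma sum_dig_bound (hb : 2 ≤ b) (χ : DirichletCharacter ℂ b) (x δ : ℝ) (N : ℕ) (hδ : 0 ≤ δ)
    (h : DigNear b δ x N) : ‖∑ n ∈ range N, dig χ (x * (b : ℝ) ^ n)‖ ≤ (b : ℝ) ^ 2 * (δ * N) := by
  have hb0 : (0 : ℝ) < b := by exact_mod_cast (by omega : 0 < b)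
  have h1 : ∀ t : ℝ, dig χ t = ∑ j ∈ range b, wt χ j * (((saw (t + j / b) - saw t : ℝ)) : ℂ) := by
    intro t
    unfold dig
    have h2 : ∑ j ∈ range b, wt χ j * ((saw t : ℝ) : ℂ) = 0 := by
      rw [← sum_mul, wt_total hb, zero_mul]
    rw [← sub_zero (∑ j ∈ range b, wt χ j * ((saw (t + j / b) : ℝ) : ℂ)), ← h2, ← sum_sub_distrib]
    refine sum_congr rfl fun j _ => ?_
    push_cast
    ring
  simp_rw [h1]
  rw [sum_comm]
  refine (norm_sum_le _ _).trans ?_
  have hone : ∀ j ∈ range b, ‖∑ n ∈ range N, wt χ j *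
      (((saw (x * (b : ℝ) ^ n + j / b) - saw (x * (b : ℝ) ^ n) : ℝ)) : ℂ)‖ ≤ b * (δ * N) := by
    intro j hj
    rw [mem_range] at hj
    rw [← mul_sum, norm_mul, ← Complex.ofReal_sum, Complex.norm_real, Real.norm_eq_abs]
    have h3 : |∑ n ∈ range N, (saw (x * (b : ℝ) ^ n + j / b) - saw (x * (b : ℝ) ^ n))| ≤ b * (δ * N) := by
      simp_rw [saw_digit hb j hj]
      rw [sum_neg_distrib, abs_neg, sum_comm]
      refine (abs_sum_le_sum_abs _ _).trans ?_
      calc ∑ d ∈ Ico (b - j) b, |∑ n ∈ range N,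
            ((if (d : ℝ) / b ≤ Int.fract (x * (b : ℝ) ^ n) ∧ Int.fract (x * (b : ℝ) ^ n) <
              ((d : ℝ) + 1) / b then (1 : ℝ) else 0) - 1 / b)|
          ≤ ∑ d ∈ Ico (b - j) b, δ * N := by
            refine sum_le_sum fun d hd => ?_
            rw [mem_Ico] at hd
            rw [sum_sub_distrib, ← vis_cast, sum_const, card_range, nsmul_eq_mul, mul_one_div]
            exact h d hd.2
        _ ≤ b * (δ * N) := by
            rw [sum_const, Nat.card_Ico, nsmul_eq_mul]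
            apply mul_le_mul_of_nonneg_right _ (by positivity)
            have : b - (b - j) ≤ b := by omega
            exact_mod_cast this
    calc ‖wt χ j‖ * |∑ n ∈ range N, (saw (x * (b : ℝ) ^ n + j / b) - saw (x * (b : ℝ) ^ n))|
        ≤ 1 * (b * (δ * N)) := mul_le_mul (norm_wt χ j) h3 (abs_nonneg _) zero_le_one
      _ = _ := one_mul _
  refine (sum_le_sum hone).trans (le_of_eq ?_)
  rw [sum_const, card_range, nsmul_eq_mul]
  ring

lemma sum_inv_le (K : ℕ) : ∑ k ∈ Icc 1 K, 1 / (k : ℝ) ≤ 1 + Real.log K := by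
  have h1 := harmonic_le_one_add_log K
  refine le_trans (le_of_eq ?_) h1
  rw [harmonic_eq_sum_Icc]
  push_cast
  refine sum_congr rfl fun k _ => ?_
  rw [one_div]

/-- the exponential sums of `x` are bounded by the digit frequencies of the multiples of `x` -/
theorem exp_bound (hb : 3 ≤ b) (U : ℕ) : ∃ (C : ℝ) (K0 : ℕ), 1 ≤ C ∧ 3 ≤ K0 ∧
    ∀ K : ℕ, K0 ≤ K → ∀ x : ℝ, Irrational x → ∀ (N : ℕ) (δ : ℝ), 0 ≤ δ →
      (∀ k : ℕ, 1 ≤ k → k ≤ K → DigNear b δ (k * x) N) →
      ‖∑ n ∈ range N, ee (x * (b : ℝ) ^ n)‖ ≤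
        C * (δ * (1 + Real.log K) + 1 / Real.log K ^ (U + 1)) * N := by
  obtain ⟨χ1, hχ1⟩ := exists_odd hb
  obtain ⟨C0, K0, hC0, hK0, h0⟩ := ser_limit (by omega) (1 : DirichletCharacter ℂ b) U
  obtain ⟨C1, K1, hC1, hK1, h1⟩ := ser_limit (by omega) χ1 U
  have hb0 : (0 : ℝ) < b := by exact_mod_cast (by omega : 0 < b)
  have hb3 : (3 : ℝ) ≤ b := by exact_mod_cast hb
  refine ⟨4 * (C0 + C1 + 2 * (b : ℝ) ^ 2), max K0 K1, by nlinarith, hK0.trans (le_max_left _ _), ?_⟩
  intro K hK x hx N δ hδ hdig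
  have hK3 : 3 ≤ K := hK0.trans ((le_max_left _ _).trans hK)
  have hlogK : 0 ≤ Real.log K := Real.log_nonneg (by exact_mod_cast (by omega : 1 ≤ K))
  have hlogK1 : 0 < Real.log K := Real.log_pos (by exact_mod_cast (by omega : 1 < K))
  have hserb : ∀ χ : DirichletCharacter ℂ b,
      ‖∑ n ∈ range N, ser χ K (x * (b : ℝ) ^ n)‖ ≤ (1 + Real.log K) * ((b : ℝ) ^ 2 * (δ * N)) := by
    intro χ
    unfold ser
    rw [sum_comm]
    refine (norm_sum_le _ _).trans ?_
    calc ∑ k ∈ Icc 1 K, ‖∑ n ∈ range N, term χ (x * (b : ℝ) ^ n) k / (k : ℂ)‖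
        ≤ ∑ k ∈ Icc 1 K, 1 / (k : ℝ) * ((b : ℝ) ^ 2 * (δ * N)) := by
          refine sum_le_sum fun k hk => ?_
          rw [mem_Icc] at hk
          have hk0 : (0 : ℝ) < k := by exact_mod_cast hk.1
          have e : ∑ n ∈ range N, term χ (x * (b : ℝ) ^ n) k / (k : ℂ) =
              (((muR k : ℝ) : ℂ) * χ (k : ZMod b) / k) *
                ∑ n ∈ range N, dig χ ((k * x) * (b : ℝ) ^ n) := by
            rw [mul_sum]
            refine sum_congr rfl fun n _ => ?_
            unfold term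
            rw [← mul_assoc (k : ℝ) x]
            ring
          rw [e, norm_mul]
          apply mul_le_mul _ (sum_dig_bound (by omega) χ _ δ N hδ (hdig k hk.1 hk.2))
            (norm_nonneg _) (by positivity)
          rw [norm_div, norm_mul, Complex.norm_real, Real.norm_eq_abs, Complex.norm_natCast]
          apply div_le_div_of_nonneg_right _ hk0.le
          calc |muR k| * ‖χ (k : ZMod b)‖ ≤ 1 * 1 :=
                mul_le_mul (muR_abs k) (norm_chi χ _) (norm_nonneg _) zero_le_one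
            _ = 1 := one_mul _
      _ ≤ (1 + Real.log K) * ((b : ℝ) ^ 2 * (δ * N)) := by
          rw [← sum_mul]
          exact mul_le_mul_of_nonneg_right (sum_inv_le K) (by positivity)
  have hirr : ∀ n : ℕ, Irrational (x * (b : ℝ) ^ n) := by
    intro n
    have h2 : b ^ n ≠ 0 := pow_ne_zero _ (by omega)
    have := hx.mul_natCast h2
    push_cast at this
    exact this
  have htgt : ∀ (χ : DirichletCharacter ℂ b) (C : ℝ),
      (∀ y : ℝ, Irrational y → ‖tgt χ y - ser χ K y‖ ≤ C / Real.log K ^ (U + 1)) →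
      ‖∑ n ∈ range N, tgt χ (x * (b : ℝ) ^ n)‖ ≤ N * (C / Real.log K ^ (U + 1)) +
        (1 + Real.log K) * ((b : ℝ) ^ 2 * (δ * N)) := by
    intro χ C hC
    have e : ∑ n ∈ range N, tgt χ (x * (b : ℝ) ^ n) =
        ∑ n ∈ range N, (tgt χ (x * (b : ℝ) ^ n) - ser χ K (x * (b : ℝ) ^ n)) +
          ∑ n ∈ range N, ser χ K (x * (b : ℝ) ^ n) := by
      rw [← sum_add_distrib]
      refine sum_congr rfl fun n _ => ?_
      ring
    rw [e]
    refine (norm_add_le _ _).trans (add_le_add ?_ (hserb χ))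
    refine (norm_sum_le _ _).trans ?_
    calc ∑ n ∈ range N, ‖tgt χ (x * (b : ℝ) ^ n) - ser χ K (x * (b : ℝ) ^ n)‖
        ≤ ∑ n ∈ range N, C / Real.log K ^ (U + 1) := sum_le_sum fun n _ => hC _ (hirr n)
      _ = N * (C / Real.log K ^ (U + 1)) := by rw [sum_const, card_range, nsmul_eq_mul]
  have hpi : (π : ℂ) ≠ 0 := by exact_mod_cast Real.pi_ne_zero
  have hee : ∀ y : ℝ, ee y = (π * Complex.I) * (tgt (1 : DirichletCharacter ℂ b) y + tgt χ1 y) := by
    intro y
    unfold tgt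
    rw [hχ1]
    have h3 : (1 : DirichletCharacter ℂ b) (-1) = 1 := MulChar.one_apply isUnit_one.neg
    rw [h3]
    field_simp
    ring
  simp_rw [hee]
  rw [← mul_sum, sum_add_distrib, norm_mul, norm_mul, Complex.norm_I, Complex.norm_real,
    Real.norm_of_nonneg Real.pi_pos.le, mul_one]
  have h4 := htgt 1 C0 (fun y hy => h0 K ((le_max_left _ _).trans hK) y hy)
  have h5 := htgt χ1 C1 (fun y hy => h1 K ((le_max_right _ _).trans hK) y hy)
  have h6 := norm_add_le (∑ n ∈ range N, tgt (1 : DirichletCharacter ℂ b) (x * (b : ℝ) ^ n))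
    (∑ n ∈ range N, tgt χ1 (x * (b : ℝ) ^ n))
  have hN0 : (0 : ℝ) ≤ N := Nat.cast_nonneg N
  set Lg := Real.log (K : ℝ) with hLg
  have hp : 0 < Lg ^ (U + 1) := by positivity
  have hpi4 := Real.pi_lt_four
  calc π * ‖∑ n ∈ range N, tgt (1 : DirichletCharacter ℂ b) (x * (b : ℝ) ^ n) +
        ∑ n ∈ range N, tgt χ1 (x * (b : ℝ) ^ n)‖
      ≤ 4 * (N * (C0 / Lg ^ (U + 1)) + (1 + Lg) * ((b : ℝ) ^ 2 * (δ * N)) +
          (N * (C1 / Lg ^ (U + 1)) + (1 + Lg) * ((b : ℝ) ^ 2 * (δ * N)))) := by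
        apply mul_le_mul hpi4.le (by linarith) (norm_nonneg _) (by norm_num)
    _ = 4 * ((C0 + C1) * (1 / Lg ^ (U + 1) * N) + 2 * (b : ℝ) ^ 2 * (δ * (1 + Lg) * N)) := by
        field_simp
        ring
    _ ≤ 4 * ((C0 + C1 + 2 * (b : ℝ) ^ 2) * (1 / Lg ^ (U + 1) * N) +
          (C0 + C1 + 2 * (b : ℝ) ^ 2) * (δ * (1 + Lg) * N)) := by
        have q1 : 0 ≤ 1 / Lg ^ (U + 1) * N := by positivity
        have q2 : 0 ≤ δ * (1 + Lg) * N := by positivity
        have q3 : (0 : ℝ) ≤ (b : ℝ) ^ 2 := by positivity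
        nlinarith [mul_nonneg q3 q1, mul_nonneg (add_nonneg hC0.le hC1.le) q2]
    _ = 4 * (C0 + C1 + 2 * (b : ℝ) ^ 2) * (δ * (1 + Lg) + 1 / Lg ^ (U + 1)) * N := by ring

end Pool.Agent.U798.MN
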