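import Pool.Agent.U798.MN.E1

/-! The number of visits from the exponential sums. -/

set_option autoImplicit false

open Finset MeasureTheory Filter Topology
open Pool.Agent.H807R2.Dav
open Pool.Agent.R485.Trans (indicator_eq saw_bound)
open scoped Real

namespace Pool.Agent.U798.MN

variable {b : ℕ}

lemma ee_eq (t : ℝ) : ee t = Pool.Agent.H469R2.NK.e t := by
  unfold ee Pool.Agent.H469R2.NK.e
  congr 1
  push_cast
  ring

/-- the number of visits from the exponential sums -/
theorem vis_of_exp (b N H : ℕ) (hH : 1 ≤ H) (x B : ℝ)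
    (hB : ∀ l : ℕ, 1 ≤ l → l ≤ H → ‖∑ n ∈ range N, ee ((l * x) * (b : ℝ) ^ n)‖ ≤ B)
    (s t : ℝ) (hs : 0 ≤ s) (hst : s ≤ t) (ht : t ≤ 1) :
    |(vis b x s t N : ℝ) - (t - s) * N| ≤ 2 * (B * (1 + Real.log H) + 2 * N / √H) := by
  have hB0 : 0 ≤ B := (norm_nonneg _).trans (hB 1 le_rfl hH)
  have hH1 : (1 : ℝ) ≤ H := by exact_mod_cast hH
  have hlog : 0 ≤ Real.log H := Real.log_nonneg hH1
  have hsq : 1 ≤ √(H : ℝ) := Real.one_le_sqrt.2 hH1
  have hN0 : (0 : ℝ) ≤ N := Nat.cast_nonneg N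
  have hmain : ∀ c : ℝ, |∑ n ∈ range N, (Int.fract (x * (b : ℝ) ^ n - c) - 1 / 2)| ≤
      B * (1 + Real.log H) + 2 * N / √H := by
    intro c
    have h1 := saw_bound (range N) (fun n => x * (b : ℝ) ^ n - c) H hH (1 / √H) (by positivity)
      (by rw [div_le_one (by positivity)]; exact hsq)
    refine h1.trans ?_
    rw [card_range]
    have h2 : ∑ h ∈ Icc 1 H, ‖∑ n ∈ range N, Pool.Agent.H469R2.NK.e (h * (x * (b : ℝ) ^ n - c))‖ / h ≤
        B * (1 + Real.log H) := by
      calc _ ≤ ∑ h ∈ Icc 1 H, B * (1 / (h : ℝ)) := by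
            refine sum_le_sum fun h hh => ?_
            rw [mem_Icc] at hh
            have hh0 : (0 : ℝ) < h := by exact_mod_cast hh.1
            rw [mul_one_div]
            apply div_le_div_of_nonneg_right _ hh0.le
            have e1 : ∑ n ∈ range N, Pool.Agent.H469R2.NK.e (h * (x * (b : ℝ) ^ n - c)) =
                Pool.Agent.H469R2.NK.e (-(h * c)) * ∑ n ∈ range N, ee ((h * x) * (b : ℝ) ^ n) := by
              rw [mul_sum]
              refine sum_congr rfl fun n _ => ?_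
              rw [ee_eq, ← Pool.Agent.H469R2.NK.e_add]
              congr 1
              ring
            rw [e1, norm_mul, Pool.Agent.H469R2.NK.norm_e, one_mul]
            exact hB h hh.1 hh.2
        _ = B * ∑ h ∈ Icc 1 H, 1 / (h : ℝ) := by rw [mul_sum]
        _ ≤ B * (1 + Real.log H) := mul_le_mul_of_nonneg_left (sum_inv_le H) hB0
    have h3 : (N : ℝ) / (H * (1 / √H)) + N * (1 / √H) = 2 * N / √H := by
      have e2 : (H : ℝ) * (1 / √H) = √H := by
        rw [mul_one_div, Real.div_sqrt]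
      rw [e2]
      ring
    linarith
  rcases hst.eq_or_lt with h | h
  · have h0 : vis b x s t N = 0 := by
      unfold vis
      rw [card_eq_zero, filter_eq_empty_iff]
      rintro n - ⟨h1, h2⟩
      rw [← h] at h2
      exact absurd h2 (not_lt.2 h1)
    rw [h0, h]
    simp only [Nat.cast_zero, sub_self, zero_mul, abs_zero]
    positivity
  · have e1 : (vis b x s t N : ℝ) - (t - s) * N =
        ∑ n ∈ range N, (Int.fract (x * (b : ℝ) ^ n - t) - 1 / 2) -
          ∑ n ∈ range N, (Int.fract (x * (b : ℝ) ^ n - s) - 1 / 2) := by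
      rw [← sum_sub_distrib, vis_cast]
      have : (t - s) * (N : ℝ) = ∑ n ∈ range N, (t - s) := by
        rw [sum_const, card_range, nsmul_eq_mul]; ring
      rw [this, ← sum_sub_distrib]
      refine sum_congr rfl fun n _ => ?_
      exact indicator_eq _ s t hs h ht
    rw [e1]
    refine (abs_sub _ _).trans ?_
    linarith [hmain t, hmain s]

/-- the discrepancy of `x` from the digit frequencies of the multiples of `x` -/
theorem disc_bound (hb : 3 ≤ b) (U : ℕ) : ∃ (C : ℝ) (K0 : ℕ), 1 ≤ C ∧ 3 ≤ K0 ∧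
    ∀ K H : ℕ, K0 ≤ K → 1 ≤ H → ∀ x : ℝ, Irrational x → ∀ (N : ℕ) (δ : ℝ), 0 ≤ δ →
      (∀ k : ℕ, 1 ≤ k → k ≤ K * H → DigNear b δ (k * x) N) →
      ∀ s t : ℝ, 0 ≤ s → s ≤ t → t ≤ 1 → |(vis b x s t N : ℝ) - (t - s) * N| ≤
        (2 * (C * (δ * (1 + Real.log K) + 1 / Real.log K ^ (U + 1)) * (1 + Real.log H)) +
          4 / √H) * N := by
  obtain ⟨C, K0, hC, hK0, h⟩ := exp_bound hb U
  refine ⟨C, K0, hC, hK0, fun K H hK hH x hx N δ hδ hd s t hs hst ht => ?_⟩
  have h1 := vis_of_exp b N H hH x (C * (δ * (1 + Real.log K) + 1 / Real.log K ^ (U + 1)) * N)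
    (fun l hl1 hl2 => by
      refine h K hK (l * x) (hx.natCast_mul (by omega)) N δ hδ (fun k hk1 hk2 => ?_)
      have := hd (k * l) (Nat.mul_pos hk1 hl1) (Nat.mul_le_mul hk2 hl2)
      push_cast at this
      rwa [mul_assoc] at this) s t hs hst ht
  refine h1.trans (le_of_eq ?_)
  ring

end Pool.Agent.U798.MN
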