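import Pool.Agent.U798.MN.E2

/-! Choice of the parameters. -/

set_option autoImplicit false

open Finset MeasureTheory Filter Topology
open Pool.Agent.H807R2.Dav
open scoped Real

namespace Pool.Agent.U798.MN

variable {b : ℕ}

/-- the digit frequencies of the first `exp (C ε ^ (-η))` multiples up to the error `ε ^ (1 + η) / C`
bound the discrepancy by `ε` -/
theorem quant (hb : 3 ≤ b) (η : ℝ) (hη : 0 < η) : ∃ C : ℝ, 1 ≤ C ∧ ∀ ε : ℝ, 0 < ε → ε ≤ 1 →
    ∀ x : ℝ, Irrational x → ∀ N : ℕ,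
      (∀ k : ℕ, 1 ≤ k → (k : ℝ) ≤ Real.exp (C * ε ^ (-η)) →
        DigNear b (ε ^ (1 + η) / C) (k * x) N) →
      ∀ s t : ℝ, 0 ≤ s → s ≤ t → t ≤ 1 → |(vis b x s t N : ℝ) - (t - s) * N| ≤ ε * N := by
  obtain ⟨θ, hθ⟩ : ∃ θ : ℝ, θ = η / 2 := ⟨_, rfl⟩
  have hθ0 : 0 < θ := by rw [hθ]; positivity
  obtain ⟨U, hU⟩ : ∃ U : ℕ, U = ⌈2 / θ⌉₊ := ⟨_, rfl⟩
  obtain ⟨C0, K0, hC0, hK0, hmain⟩ := disc_bound hb U
  have hUθ : 2 ≤ θ * ((U + 1 : ℕ) : ℝ) := by
    have h1 : 2 / θ ≤ U := by rw [hU]; exact Nat.le_ceil _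
    rw [div_le_iff₀ hθ0] at h1
    push_cast
    nlinarith
  obtain ⟨c1, hc1⟩ : ∃ c1 : ℝ, c1 = 66 + 2 / θ := ⟨_, rfl⟩
  have hc1p : 66 ≤ c1 := by
    have : 0 < 2 / θ := by positivity
    linarith
  obtain ⟨A, hA⟩ : ∃ A : ℝ, A = 544 * C0 + K0 := ⟨_, rfl⟩
  have hA1 : 1 ≤ A := by
    have : (0 : ℝ) ≤ K0 := Nat.cast_nonneg _
    linarith
  obtain ⟨C, hC⟩ : ∃ C : ℝ, C = 24 * C0 * A * c1 := ⟨_, rfl⟩
  have hCA : A + c1 ≤ C := by
    have h1 : A * 1 ≤ A * c1 := mul_le_mul_of_nonneg_left (by linarith) (by linarith)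
    have h2 : 1 * c1 ≤ A * c1 := mul_le_mul_of_nonneg_right hA1 (by linarith)
    have h3 : 0 ≤ A * c1 := by positivity
    have h4 : 24 * 1 * (A * c1) ≤ 24 * C0 * (A * c1) :=
      mul_le_mul_of_nonneg_right (by linarith) h3
    have : C = 24 * C0 * (A * c1) := by rw [hC]; ring
    linarith
  have hC1 : 1 ≤ C := by linarith
  have hC0' : 0 < C := by linarith
  refine ⟨C, hC1, fun ε hε hε1 x hx N hd s t hs hst ht => ?_⟩
  obtain ⟨P, hP⟩ : ∃ P : ℝ, P = ε ^ (-θ) := ⟨_, rfl⟩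
  have hP1 : 1 ≤ P := hP ▸ Real.one_le_rpow_of_pos_of_le_one_of_nonpos hε hε1 (by linarith)
  have hP2 : P ^ 2 = ε ^ (-η) := by
    rw [hP, ← Real.rpow_natCast, ← Real.rpow_mul hε.le]
    congr 1
    push_cast
    rw [hθ]; ring
  have hPU : 1 / ε ^ 2 ≤ P ^ (U + 1) := by
    have h1 : P ^ (U + 1) = ε ^ (-(θ * ((U + 1 : ℕ) : ℝ))) := by
      rw [hP, ← Real.rpow_natCast, ← Real.rpow_mul hε.le]
      congr 1
      ring
    rw [h1]
    have h2 : 1 / ε ^ 2 = ε ^ (-(2 : ℝ)) := by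
      rw [Real.rpow_neg hε.le, one_div]
      congr 1
      exact (Real.rpow_natCast ε 2).symm
    rw [h2]
    exact Real.rpow_le_rpow_of_exponent_ge hε hε1 (by linarith)
  have hinv : 0 < 1 / ε := by positivity
  have hlogP : Real.log (1 / ε) ≤ P / θ := by
    have h1 := Real.log_le_rpow_div hinv.le hθ0
    have h2 : (1 / ε) ^ θ = P := by
      rw [hP, one_div, Real.inv_rpow hε.le, Real.rpow_neg hε.le]
    rwa [h2] at h1
  have hlog1 : Real.log (1 / ε) ≤ 1 / ε := (Real.log_le_sub_one_of_pos hinv).trans (by linarith)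
  have hlog65 : Real.log 65 ≤ 65 := (Real.log_le_sub_one_of_pos (by norm_num)).trans (by norm_num)
  -- the number of frequencies
  obtain ⟨H, hH⟩ : ∃ H : ℕ, H = ⌈64 / ε ^ 2⌉₊ := ⟨_, rfl⟩
  have hH1 : 64 / ε ^ 2 ≤ H := by rw [hH]; exact Nat.le_ceil _
  have hone : 1 ≤ 1 / ε := by rw [le_div_iff₀ hε]; linarith
  have hone2 : 1 ≤ 1 / ε ^ 2 := by
    rw [le_div_iff₀ (by positivity)]
    nlinarith
  have hH2 : (H : ℝ) ≤ 65 / ε ^ 2 := by
    have h1 : (H : ℝ) < 64 / ε ^ 2 + 1 := by rw [hH]; exact Nat.ceil_lt_add_one (by positivity)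
    have h2 : 65 / ε ^ 2 = 64 / ε ^ 2 + 1 / ε ^ 2 := by ring
    linarith
  have hHpos : 0 < (H : ℝ) := lt_of_lt_of_le (by positivity) hH1
  have hH0 : 1 ≤ H := by
    have : 0 < H := by exact_mod_cast hHpos
    omega
  have hlogH : Real.log H ≤ Real.log 65 + 2 * Real.log (1 / ε) := by
    refine (Real.log_le_log hHpos hH2).trans (le_of_eq ?_)
    have : 65 / ε ^ 2 = 65 * (1 / ε) ^ 2 := by field_simp
    rw [this, Real.log_mul (by norm_num) (by positivity), Real.log_pow]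
    push_cast
    ring
  have hlogH1 : 1 + Real.log H ≤ c1 * P := by
    have : 2 * (P / θ) = 2 / θ * P := by ring
    rw [hc1]
    nlinarith
  have hlogH2 : 1 + Real.log H ≤ 68 / ε := by
    have : 68 / ε = 68 * (1 / ε) := by ring
    rw [this]
    linarith
  have hlogH0 : 0 ≤ Real.log H := Real.log_nonneg (by exact_mod_cast hH0)
  have hsq : 4 / √(H : ℝ) ≤ ε / 2 := by
    have h1 : 8 / ε ≤ √(H : ℝ) := by
      apply Real.le_sqrt_of_sq_le
      have : (8 / ε) ^ 2 = 64 / ε ^ 2 := by field_simp; norm_num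
      rw [this]
      exact hH1
    have h2 : 4 / √(H : ℝ) ≤ 4 / (8 / ε) := div_le_div_of_nonneg_left (by norm_num) (by positivity) h1
    refine h2.trans (le_of_eq ?_)
    field_simp
    norm_num
  -- the number of multiples
  obtain ⟨K, hK⟩ : ∃ K : ℕ, K = ⌈Real.exp (A * P)⌉₊ := ⟨_, rfl⟩
  have hK1 : Real.exp (A * P) ≤ K := by rw [hK]; exact Nat.le_ceil _
  have hAP : A ≤ A * P := by nlinarith
  have hexp1 : A * P + 1 ≤ Real.exp (A * P) := Real.add_one_le_exp _
  have hK2 : (K : ℝ) ≤ 2 * Real.exp (A * P) := by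
    have h1 : (K : ℝ) < Real.exp (A * P) + 1 := by
      rw [hK]; exact Nat.ceil_lt_add_one (Real.exp_pos _).le
    linarith
  have hKpos : 0 < (K : ℝ) := lt_of_lt_of_le (Real.exp_pos _) hK1
  have hK0' : K0 ≤ K := by
    have h1 : (K0 : ℝ) ≤ K := by linarith
    exact_mod_cast h1
  have hlogK1 : A * P ≤ Real.log K := by
    rw [Real.le_log_iff_exp_le hKpos]
    exact hK1
  have hlog2 : Real.log 2 ≤ 1 := (Real.log_le_sub_one_of_pos (by norm_num)).trans (by norm_num)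
  have hlogK2 : Real.log K ≤ 1 + A * P := by
    refine (Real.log_le_log hKpos hK2).trans ?_
    rw [Real.log_mul (by norm_num) (Real.exp_pos _).ne', Real.log_exp]
    linarith
  have hlogK3 : 1 + Real.log K ≤ 3 * (A * P) := by linarith
  -- the hypothesis
  have hδ0 : 0 ≤ ε ^ (1 + η) / C := div_nonneg (Real.rpow_nonneg hε.le _) hC0'.le
  have hKH : ∀ k : ℕ, 1 ≤ k → k ≤ K * H → DigNear b (ε ^ (1 + η) / C) (k * x) N := by
    intro k hk1 hk2
    refine hd k hk1 ?_
    have h1 : (k : ℝ) ≤ K * H := by exact_mod_cast hk2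
    refine h1.trans ?_
    rw [← Real.log_le_iff_le_exp (by positivity), Real.log_mul hKpos.ne' hHpos.ne', ← hP2]
    have h2 : P ≤ P ^ 2 := by nlinarith
    calc Real.log K + Real.log H ≤ A * P + c1 * P := by linarith
      _ = (A + c1) * P := by ring
      _ ≤ C * P := mul_le_mul_of_nonneg_right hCA (by linarith)
      _ ≤ C * P ^ 2 := mul_le_mul_of_nonneg_left h2 hC0'.le
  have h0 := hmain K H hK0' hH0 x hx N _ hδ0 hKH s t hs hst ht
  refine h0.trans (mul_le_mul_of_nonneg_right ?_ (Nat.cast_nonneg N))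
  -- the first term
  have t1 : ε ^ (1 + η) / C * (1 + Real.log K) * (1 + Real.log H) ≤ ε / (8 * C0) := by
    have h1 : ε ^ (1 + η) * P ^ 2 = ε := by
      rw [hP2, ← Real.rpow_add hε]
      have : 1 + η + -η = 1 := by ring
      rw [this, Real.rpow_one]
    calc ε ^ (1 + η) / C * (1 + Real.log K) * (1 + Real.log H)
        ≤ ε ^ (1 + η) / C * (3 * (A * P)) * (c1 * P) := by
          apply mul_le_mul (mul_le_mul_of_nonneg_left hlogK3 hδ0) hlogH1 (by linarith)
          positivity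
      _ = (ε ^ (1 + η) * P ^ 2) * (3 * A * c1) / C := by ring
      _ = ε * (3 * A * c1) / C := by rw [h1]
      _ = ε / (8 * C0) := by
          rw [hC]
          field_simp
          ring
  have t2 : 1 / Real.log K ^ (U + 1) * (1 + Real.log H) ≤ ε / (8 * C0) := by
    have h1 : 1 / Real.log K ^ (U + 1) ≤ ε ^ 2 / A := by
      have h2 : A / ε ^ 2 ≤ Real.log K ^ (U + 1) := by
        calc A / ε ^ 2 = A * (1 / ε ^ 2) := by ring
          _ ≤ A ^ (U + 1) * P ^ (U + 1) := by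
            apply mul_le_mul _ hPU (by positivity) (by positivity)
            exact le_self_pow₀ hA1 (by omega)
          _ = (A * P) ^ (U + 1) := by rw [mul_pow]
          _ ≤ _ := pow_le_pow_left₀ (by positivity) hlogK1 _
      have h3 : 1 / Real.log K ^ (U + 1) ≤ 1 / (A / ε ^ 2) :=
        div_le_div_of_nonneg_left zero_le_one (by positivity) h2
      rwa [one_div_div] at h3
    calc 1 / Real.log K ^ (U + 1) * (1 + Real.log H) ≤ ε ^ 2 / A * (68 / ε) :=
          mul_le_mul h1 hlogH2 (by linarith) (by positivity)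
      _ = 68 * ε / A := by field_simp
      _ ≤ 68 * ε / (544 * C0) := by
          apply div_le_div_of_nonneg_left (by positivity) (by positivity)
          rw [hA]
          have : (0 : ℝ) ≤ K0 := Nat.cast_nonneg _
          linarith
      _ = ε / (8 * C0) := by
          field_simp
          norm_num
  have hfin : 2 * (C0 * (ε ^ (1 + η) / C * (1 + Real.log K) + 1 / Real.log K ^ (U + 1)) *
      (1 + Real.log H)) ≤ ε / 2 := by
    have e1 : 2 * (C0 * (ε ^ (1 + η) / C * (1 + Real.log K) + 1 / Real.log K ^ (U + 1)) *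
      (1 + Real.log H)) = 2 * C0 * (ε ^ (1 + η) / C * (1 + Real.log K) * (1 + Real.log H) +
        1 / Real.log K ^ (U + 1) * (1 + Real.log H)) := by ring
    rw [e1]
    calc _ ≤ 2 * C0 * (ε / (8 * C0) + ε / (8 * C0)) :=
          mul_le_mul_of_nonneg_left (add_le_add t1 t2) (by positivity)
      _ = ε / 2 := by
          field_simp
          norm_num
  linarith

end Pool.Agent.U798.MN
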