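import Pool.Agent.U798.MN.E3

/-! Words of digits and visits. -/

set_option autoImplicit false

open Finset Filter Topology

namespace Pool.Agent.U798.MN

variable {b : ℕ}

/-- the `j`-th digit after the point of `y`, `j = 0, 1, …` -/
noncomputable def dg (b : ℕ) (y : ℝ) (j : ℕ) : ℤ := ⌊y * (b : ℝ) ^ (j + 1)⌋ % (b : ℤ)

/-- the value of the first `k` digits -/
noncomputable def cel (b : ℕ) (y : ℝ) (k : ℕ) : ℤ := ⌊Int.fract y * (b : ℝ) ^ k⌋

/-- the value of the word `w 0, …, w (k - 1)` -/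
def val (b : ℕ) (w : ℕ → ℤ) : ℕ → ℤ
  | 0 => 0
  | k + 1 => b * val b w k + w k

lemma cel_zero (y : ℝ) : cel b y 0 = 0 := by
  unfold cel
  rw [pow_zero, mul_one, Int.floor_eq_zero_iff]
  exact ⟨Int.fract_nonneg y, Int.fract_lt_one y⟩

lemma cel_succ (hb : 2 ≤ b) (y : ℝ) (k : ℕ) : cel b y (k + 1) = b * cel b y k + dg b y k := by
  have hb0 : (b : ℝ) ≠ 0 := by
    have : b ≠ 0 := by omega
    exact_mod_cast this
  have h1 : dg b y k = ⌊Int.fract y * (b : ℝ) ^ (k + 1)⌋ % (b : ℤ) := by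
    unfold dg
    have e1 : y * (b : ℝ) ^ (k + 1) = Int.fract y * (b : ℝ) ^ (k + 1) +
        ((⌊y⌋ * (b : ℤ) ^ (k + 1) : ℤ) : ℝ) := by
      push_cast
      rw [← add_mul, Int.fract_add_floor]
    rw [e1, Int.floor_add_intCast, pow_succ (b : ℤ), ← mul_assoc, Int.add_mul_emod_self_right]
  have h2 : ⌊Int.fract y * (b : ℝ) ^ (k + 1)⌋ / (b : ℤ) = cel b y k := by
    unfold cel
    rw [← Int.floor_div_natCast]
    congr 1
    rw [pow_succ]
    field_simp
  rw [h1, ← h2]
  unfold cel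
  exact (Int.mul_ediv_add_emod _ _).symm

lemma dg_nonneg (hb : 2 ≤ b) (y : ℝ) (j : ℕ) : 0 ≤ dg b y j :=
  Int.emod_nonneg _ (by omega)

lemma dg_lt (hb : 2 ≤ b) (y : ℝ) (j : ℕ) : dg b y j < b :=
  Int.emod_lt_of_pos _ (by omega)

lemma cel_eq_val (hb : 2 ≤ b) (y : ℝ) (w : ℕ → ℤ) (hw0 : ∀ j, 0 ≤ w j) (hw1 : ∀ j, w j < b)
    (k : ℕ) : (∀ j : ℕ, j < k → dg b y j = w j) ↔ cel b y k = val b w k := by
  induction k with
  | zero => simp [cel_zero, val]
  | succ k ih =>
    rw [cel_succ hb]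
    unfold val
    constructor
    · intro h
      rw [ih.1 (fun j hj => h j (by omega)), h k (by omega)]
    · intro h
      have hd0 := dg_nonneg hb y k
      have hd1 := dg_lt hb y k
      have h1 : dg b y k = w k := by
        have := congrArg (· % (b : ℤ)) h
        simp only [Int.mul_add_emod_self_left] at this
        rwa [Int.emod_eq_of_lt hd0 hd1, Int.emod_eq_of_lt (hw0 k) (hw1 k)] at this
      have h2 : cel b y k = val b w k := by
        rw [h1] at h
        have h3 : (b : ℤ) * cel b y k = b * val b w k := by linarith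
        exact mul_left_cancel₀ (by omega) h3
      intro j hj
      rcases Nat.lt_succ_iff_lt_or_eq.1 hj with h3 | h3
      · exact ih.2 h2 j h3
      · rw [h3]; exact h1

lemma val_nonneg (w : ℕ → ℤ) (hw0 : ∀ j, 0 ≤ w j) (k : ℕ) : 0 ≤ val b w k := by
  induction k with
  | zero => simp [val]
  | succ k ih =>
    unfold val
    have := hw0 k
    positivity

lemma val_lt (w : ℕ → ℤ) (hw1 : ∀ j, w j < b) (k : ℕ) : val b w k < (b : ℤ) ^ k := by
  induction k with
  | zero => simp [val]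
  | succ k ih =>
    unfold val
    have h1 := hw1 k
    have h2 : val b w k + 1 ≤ (b : ℤ) ^ k := ih
    have hb0 : (0 : ℤ) ≤ b := by omega
    calc (b : ℤ) * val b w k + w k < b * val b w k + b := by linarith
      _ = b * (val b w k + 1) := by ring
      _ ≤ b * (b : ℤ) ^ k := mul_le_mul_of_nonneg_left h2 hb0
      _ = (b : ℤ) ^ (k + 1) := by ring

lemma cel_iff (hb : 2 ≤ b) (y : ℝ) (k : ℕ) (W : ℤ) : cel b y k = W ↔
    (W : ℝ) / (b : ℝ) ^ k ≤ Int.fract y ∧ Int.fract y < ((W : ℝ) + 1) / (b : ℝ) ^ k := by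
  have hb0 : (0 : ℝ) < (b : ℝ) ^ k := by
    have : (0 : ℝ) < b := by exact_mod_cast (by omega : 0 < b)
    positivity
  unfold cel
  rw [Int.floor_eq_iff, div_le_iff₀ hb0, lt_div_iff₀ hb0]

/-- the number of places `1 ≤ i ≤ N` at which the word `w 0, …, w (k - 1)` occurs -/
noncomputable def occ (b k : ℕ) (w : ℕ → ℤ) (x : ℝ) (N : ℕ) : ℕ :=
  ((range N).filter fun n : ℕ => ∀ j : ℕ, j < k → dg b (x * (b : ℝ) ^ n) j = w j).card

lemma occ_eq_vis (hb : 2 ≤ b) (k : ℕ) (w : ℕ → ℤ) (hw0 : ∀ j, 0 ≤ w j) (hw1 : ∀ j, w j < b)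
    (x : ℝ) (N : ℕ) : occ b k w x N =
      vis b x ((val b w k : ℝ) / (b : ℝ) ^ k) (((val b w k : ℝ) + 1) / (b : ℝ) ^ k) N := by
  unfold occ vis
  congr 1
  refine filter_congr fun n _ => ?_
  rw [cel_eq_val hb _ w hw0 hw1, cel_iff hb]

/-- every `W < b ^ k` is the value of a word -/
lemma exists_word (hb : 2 ≤ b) (k : ℕ) (W : ℕ) (hW : W < b ^ k) : ∃ w : ℕ → ℤ,
    (∀ j, 0 ≤ w j) ∧ (∀ j, w j < b) ∧ val b w k = W := by
  have hb0 : (0 : ℝ) < (b : ℝ) ^ k := by
    have : (0 : ℝ) < b := by exact_mod_cast (by omega : 0 < b)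
    positivity
  refine ⟨dg b ((W : ℝ) / (b : ℝ) ^ k), dg_nonneg hb _, dg_lt hb _, ?_⟩
  rw [← (cel_eq_val hb ((W : ℝ) / (b : ℝ) ^ k) _ (dg_nonneg hb _) (dg_lt hb _) k).1
    (fun j _ => rfl), cel_iff hb]
  have h1 : Int.fract ((W : ℝ) / (b : ℝ) ^ k) = (W : ℝ) / (b : ℝ) ^ k := by
    rw [Int.fract_eq_self]
    refine ⟨by positivity, ?_⟩
    rw [div_lt_one hb0]
    exact_mod_cast hW
  rw [h1]
  refine ⟨le_of_eq (by push_cast; rfl), ?_⟩
  apply div_lt_div_of_pos_right _ hb0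
  push_cast
  linarith

lemma vis_mono_right (b : ℕ) (x s t t' : ℝ) (N : ℕ) (h : t ≤ t') : vis b x s t N ≤ vis b x s t' N := by
  unfold vis
  refine card_le_card fun n hn => ?_
  rw [mem_filter] at hn ⊢
  exact ⟨hn.1, hn.2.1, hn.2.2.trans_le h⟩

lemma vis_mono_left (b : ℕ) (x s s' t : ℝ) (N : ℕ) (h : s' ≤ s) : vis b x s t N ≤ vis b x s' t N := by
  unfold vis
  refine card_le_card fun n hn => ?_
  rw [mem_filter] at hn ⊢
  exact ⟨hn.1, h.trans hn.2.1, hn.2.2⟩

lemma vis_add (b : ℕ) (x s t u : ℝ) (N : ℕ) (h1 : s ≤ t) (h2 : t ≤ u) :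
    vis b x s t N + vis b x t u N = vis b x s u N := by
  unfold vis
  rw [← card_union_of_disjoint]
  · congr 1
    ext n
    simp only [mem_union, mem_filter, mem_range]
    constructor
    · rintro (⟨h, h3, h4⟩ | ⟨h, h3, h4⟩)
      · exact ⟨h, h3, h4.trans_le h2⟩
      · exact ⟨h, h1.trans h3, h4⟩
    · rintro ⟨h, h3, h4⟩
      rcases lt_or_ge (Int.fract (x * (b : ℝ) ^ n)) t with h5 | h5
      · exact Or.inl ⟨h, h3, h5⟩
      · exact Or.inr ⟨h, h5, h4⟩
  · rw [disjoint_filter]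
    rintro n - ⟨_, h3⟩ ⟨h4, _⟩
    linarith

lemma vis_total (b : ℕ) (x : ℝ) (N : ℕ) : vis b x 0 1 N = N := by
  unfold vis
  rw [filter_true_of_mem, card_range]
  intro n _
  exact ⟨Int.fract_nonneg _, Int.fract_lt_one _⟩

/-- sums over cells -/
lemma vis_cells (b : ℕ) (x : ℝ) (N m : ℕ) (a : ℕ) (c : ℕ) (hac : a ≤ c) :
    ∑ W ∈ Ico a c, vis b x ((W : ℝ) / (b : ℝ) ^ m) (((W : ℝ) + 1) / (b : ℝ) ^ m) N =
      vis b x ((a : ℝ) / (b : ℝ) ^ m) ((c : ℝ) / (b : ℝ) ^ m) N := by
  have hb0 : (0 : ℝ) ≤ (b : ℝ) ^ m := by positivity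
  induction c, hac using Nat.le_induction with
  | base =>
    rw [Ico_self, sum_empty]
    unfold vis
    symm
    rw [card_eq_zero, filter_eq_empty_iff]
    rintro n - ⟨h1, h2⟩
    linarith
  | succ c hc ih =>
    rw [sum_Ico_succ_top hc, ih, vis_add]
    · push_cast; rfl
    · apply div_le_div_of_nonneg_right _ hb0
      exact_mod_cast hc
    · apply div_le_div_of_nonneg_right _ hb0
      linarith

/-- if all the words have the right frequency, then the sequence is uniformly distributed -/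
theorem ud_of_words (hb : 2 ≤ b) (x : ℝ)
    (h : ∀ k : ℕ, 1 ≤ k → ∀ w : ℕ → ℤ, (∀ j, 0 ≤ w j) → (∀ j, w j < b) →
      Tendsto (fun N : ℕ => (occ b k w x N : ℝ) / N) atTop (𝓝 (1 / (b : ℝ) ^ k)))
    (s t : ℝ) (hs : 0 ≤ s) (hst : s ≤ t) (ht : t ≤ 1) :
    Tendsto (fun N : ℕ => (vis b x s t N : ℝ) / N) atTop (𝓝 (t - s)) := by
  have hb1 : (1 : ℝ) < b := by exact_mod_cast (by omega : 1 < b)
  -- lower bound
  have low : ∀ s t : ℝ, 0 ≤ s → s ≤ t → t ≤ 1 → ∀ ε : ℝ, 0 < ε → ∀ᶠ N : ℕ in atTop,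
      (t - s - ε) * N ≤ (vis b x s t N : ℝ) := by
    intro s t hs hst ht ε hε
    obtain ⟨m, hm1, hm⟩ : ∃ m : ℕ, 1 ≤ m ∧ 3 / ε < (b : ℝ) ^ m := by
      obtain ⟨m, hm⟩ := pow_unbounded_of_one_lt (3 / ε) hb1
      exact ⟨m + 1, by omega, hm.trans_le (pow_le_pow_right₀ hb1.le (by omega))⟩
    have hbm : (0 : ℝ) < (b : ℝ) ^ m := by positivity
    set B : ℝ := (b : ℝ) ^ m with hB
    have hBε : 3 / B < ε := by
      rw [div_lt_iff₀ hε] at hm
      rw [div_lt_iff₀ hbm]
      linarith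
    have hcell : ∀ᶠ N : ℕ in atTop, ∀ W ∈ range (b ^ m),
        (1 / B - 1 / B ^ 2) * N ≤ (vis b x ((W : ℝ) / B) (((W : ℝ) + 1) / B) N : ℝ) := by
      rw [Filter.eventually_all_finset]
      intro W hW
      rw [mem_range] at hW
      obtain ⟨w, hw0, hw1, hwv⟩ := exists_word hb m W hW
      have h1 := h m hm1 w hw0 hw1
      have h2 : 1 / B - 1 / B ^ 2 < 1 / (b : ℝ) ^ m := by
        have : 0 < 1 / B ^ 2 := by positivity
        rw [← hB]; linarith
      have h3 := h1.eventually (lt_mem_nhds h2)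
      filter_upwards [h3, eventually_gt_atTop 0] with N hN hN0
      have hN0' : (0 : ℝ) < N := by exact_mod_cast hN0
      rw [occ_eq_vis hb m w hw0 hw1, hwv, lt_div_iff₀ hN0'] at hN
      push_cast at hN
      exact hN.le
    filter_upwards [hcell] with N hN
    have hN0 : (0 : ℝ) ≤ N := Nat.cast_nonneg N
    set a : ℕ := ⌈s * B⌉₊ with ha
    set c : ℕ := ⌊t * B⌋₊ with hc
    have ht0 : 0 ≤ t := hs.trans hst
    have ha1 : (a : ℝ) < s * B + 1 := Nat.ceil_lt_add_one (by positivity)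
    have ha2 : s * B ≤ a := Nat.le_ceil _
    have hc1 : t * B < c + 1 := Nat.lt_floor_add_one _
    have hc2 : (c : ℝ) ≤ t * B := Nat.floor_le (by positivity)
    have hcB : c ≤ b ^ m := by
      have : (c : ℝ) ≤ ((b ^ m : ℕ) : ℝ) := by
        push_cast
        rw [← hB]
        nlinarith
      exact_mod_cast this
    rcases le_total a c with hac | hac
    · have h1 : ((c : ℝ) - a) * ((1 / B - 1 / B ^ 2) * N) ≤ (vis b x s t N : ℝ) := by
        have h2 : (vis b x ((a : ℝ) / B) ((c : ℝ) / B) N : ℝ) ≤ vis b x s t N := by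
          have h3 : vis b x ((a : ℝ) / B) ((c : ℝ) / B) N ≤ vis b x s t N := by
            refine (vis_mono_right b x _ _ t N ?_).trans (vis_mono_left b x _ s t N ?_)
            · rw [div_le_iff₀ hbm]; exact hc2
            · rw [le_div_iff₀ hbm]; exact ha2
          exact_mod_cast h3
        refine le_trans ?_ h2
        rw [← vis_cells b x N m a c hac]
        push_cast
        have h4 : ((c : ℝ) - a) * ((1 / B - 1 / B ^ 2) * N) =
            ∑ W ∈ Ico a c, (1 / B - 1 / B ^ 2) * N := by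
          rw [sum_const, Nat.card_Ico, nsmul_eq_mul, Nat.cast_sub hac]
        rw [h4]
        refine sum_le_sum fun W hW => ?_
        rw [mem_Ico] at hW
        exact hN W (mem_range.2 (hW.2.trans_le hcB))
      refine le_trans ?_ h1
      rw [← mul_assoc]
      apply mul_le_mul_of_nonneg_right _ hN0
      have h5 : (t - s) * B - 2 ≤ (c : ℝ) - a := by linarith
      have hB1 : 1 ≤ B := one_le_pow₀ hb1.le
      have h6 : ((c : ℝ) - a) * (1 / B) ≤ 1 := by
        rw [mul_one_div, div_le_one hbm]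
        have : (0 : ℝ) ≤ a := Nat.cast_nonneg _
        nlinarith
      have h7 : ((c : ℝ) - a) * (1 / B - 1 / B ^ 2) =
          ((c : ℝ) - a) * (1 / B) - ((c : ℝ) - a) * (1 / B) * (1 / B) := by
        field_simp
      rw [h7]
      have h8 : (t - s) - 2 / B ≤ ((c : ℝ) - a) * (1 / B) := by
        rw [mul_one_div, le_div_iff₀ hbm]
        have : (t - s - 2 / B) * B = (t - s) * B - 2 := by field_simp
        rw [this]; exact h5
      have h9 : ((c : ℝ) - a) * (1 / B) * (1 / B) ≤ 1 * (1 / B) :=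
        mul_le_mul_of_nonneg_right h6 (by positivity)
      have h10 : 3 / B = 2 / B + 1 * (1 / B) := by ring
      linarith
    · have h1 : (c : ℝ) ≤ a := by exact_mod_cast hac
      have h2 : (t - s) * B ≤ 2 := by linarith
      have h3 : t - s - ε ≤ 0 := by
        have h4 : t - s ≤ 2 / B := by rw [le_div_iff₀ hbm]; exact h2
        have h5 : 2 / B ≤ 3 / B := div_le_div_of_nonneg_right (by norm_num) hbm.le
        linarith
      exact (mul_nonpos_of_nonpos_of_nonneg h3 hN0).trans (Nat.cast_nonneg _)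
  rw [Metric.tendsto_atTop]
  intro ε hε
  have h1 := low s t hs hst ht (ε / 2) (by positivity)
  have h2 := low 0 s le_rfl hs (hst.trans ht) (ε / 4) (by positivity)
  have h3 := low t 1 (hs.trans hst) ht le_rfl (ε / 4) (by positivity)
  obtain ⟨N0, hN0⟩ := eventually_atTop.1 ((h1.and h2).and (h3.and (eventually_gt_atTop 0)))
  refine ⟨N0, fun N hN => ?_⟩
  obtain ⟨⟨g1, g2⟩, g3, g4⟩ := hN0 N hN
  have hNp : (0 : ℝ) < N := by exact_mod_cast g4
  have e1 : (vis b x 0 s N : ℝ) + vis b x s t N + vis b x t 1 N = N := by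
    have q1 := vis_add b x 0 s t N hs hst
    have q2 := vis_add b x 0 t 1 N (hs.trans hst) ht
    rw [vis_total] at q2
    have : vis b x 0 s N + vis b x s t N + vis b x t 1 N = N := by omega
    exact_mod_cast this
  rw [Real.dist_eq, abs_lt]
  constructor
  · rw [neg_lt_sub_iff_lt_add, ← sub_lt_iff_lt_add', lt_div_iff₀ hNp]
    nlinarith
  · rw [sub_lt_iff_lt_add, div_lt_iff₀ hNp]
    nlinarith

/-- the digit frequencies of the multiples from the uniform distribution -/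
theorem ud_mult (b : ℕ) (x : ℝ)
    (h : ∀ s t : ℝ, 0 ≤ s → s ≤ t → t ≤ 1 →
      Tendsto (fun N : ℕ => (vis b x s t N : ℝ) / N) atTop (𝓝 (t - s)))
    (k : ℕ) (hk : 1 ≤ k) (s t : ℝ) (hs : 0 ≤ s) (hst : s ≤ t) (ht : t ≤ 1) :
    Tendsto (fun N : ℕ => (vis b (k * x) s t N : ℝ) / N) atTop (𝓝 (t - s)) := by
  have hk0 : (0 : ℝ) < k := by exact_mod_cast hk
  have key : ∀ N : ℕ, (vis b (k * x) s t N : ℝ) =
      ∑ j ∈ range k, (vis b x (((j : ℝ) + s) / k) (((j : ℝ) + t) / k) N : ℝ) := by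
    intro N
    simp_rw [vis_cast]
    rw [sum_comm]
    refine sum_congr rfl fun n _ => ?_
    set y := x * (b : ℝ) ^ n with hy
    have e0 : (k : ℝ) * x * (b : ℝ) ^ n = k * y := by rw [hy]; ring
    rw [e0]
    have hf0 := Int.fract_nonneg y
    have hf1 := Int.fract_lt_one y
    set f := Int.fract y with hf
    set J : ℕ := ⌊(k : ℝ) * f⌋₊ with hJ
    have hJ1 : (J : ℝ) ≤ k * f := Nat.floor_le (by positivity)
    have hJ2 : (k : ℝ) * f < J + 1 := Nat.lt_floor_add_one _
    have hJk : J < k := by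
      have : (J : ℝ) < k := by nlinarith
      exact_mod_cast this
    have e1 : Int.fract ((k : ℝ) * y) = k * f - J := by
      have : (k : ℝ) * y = (k * f - J) + (((k : ℤ) * ⌊y⌋ + J : ℤ) : ℝ) := by
        push_cast
        have : y = f + ⌊y⌋ := (Int.fract_add_floor y).symm
        nth_rewrite 1 [this]
        ring
      rw [this, Int.fract_add_intCast, Int.fract_eq_self]
      constructor <;> linarith
    rw [sum_eq_single J]
    · rw [e1]
      congr 1
      apply propext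
      rw [div_le_iff₀ hk0, lt_div_iff₀ hk0]
      constructor
      · rintro ⟨h1, h2⟩
        constructor <;> linarith
      · rintro ⟨h1, h2⟩
        constructor <;> linarith
    · intro j _ hj
      rw [if_neg]
      rintro ⟨h1, h2⟩
      rw [div_le_iff₀ hk0] at h1
      rw [lt_div_iff₀ hk0] at h2
      have h3 : (j : ℝ) < J + 1 := by nlinarith
      have h4 : (J : ℝ) < j + 1 := by nlinarith
      have h5 : j < J + 1 := by exact_mod_cast h3
      have h6 : J < j + 1 := by exact_mod_cast h4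
      omega
    · intro h1
      exact absurd (mem_range.2 hJk) h1
  have e2 : t - s = ∑ j ∈ range k, ((((j : ℝ) + t) / k) - (((j : ℝ) + s) / k)) := by
    have : ∀ j : ℕ, (((j : ℝ) + t) / k) - (((j : ℝ) + s) / k) = (t - s) / k := by
      intro j; ring
    simp_rw [this]
    rw [sum_const, card_range, nsmul_eq_mul]
    field_simp
  rw [e2]
  have e3 : (fun N : ℕ => (vis b (k * x) s t N : ℝ) / N) = fun N : ℕ =>
      ∑ j ∈ range k, (vis b x (((j : ℝ) + s) / k) (((j : ℝ) + t) / k) N : ℝ) / N := by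
    funext N
    rw [key, sum_div]
  rw [e3]
  refine tendsto_finsetSum _ fun j hj => ?_
  rw [mem_range] at hj
  apply h
  · positivity
  · apply div_le_div_of_nonneg_right _ hk0.le
    linarith
  · rw [div_le_one hk0]
    have : ((j + 1 : ℕ) : ℝ) ≤ k := by exact_mod_cast hj
    push_cast at this
    linarith

end Pool.Agent.U798.MN
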