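import Pool.Agent.U798.MN.E4

/-! Base two: a number far from normal all of whose multiples are simply normal.
Its digits are `01 0011 000111 ⋯`. -/

set_option autoImplicit false

open Finset Filter Topology

namespace Pool.Agent.U798.MN

/-- the run of `r` ones after the place `r ^ 2` -/
noncomputable def rn (r : ℕ) : ℝ := (1 / 2) ^ (r ^ 2) - (1 / 2) ^ (r ^ 2 + r)

lemma rn_nonneg (r : ℕ) : 0 ≤ rn r := by
  unfold rn
  rw [sub_nonneg]
  exact pow_le_pow_of_le_one (by norm_num) (by norm_num) (by omega)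

lemma rn_sum (r R : ℕ) (h : r ≤ R) :
    ∑ i ∈ range R, rn i ≤ ∑ i ∈ range r, rn i + (1 / 2) ^ (r ^ 2) - (1 / 2) ^ (R ^ 2) := by
  induction R, h using Nat.le_induction with
  | base => simp
  | succ R _ ih =>
    rw [sum_range_succ]
    have h1 : rn R ≤ (1 / 2 : ℝ) ^ (R ^ 2) - (1 / 2) ^ ((R + 1) ^ 2) := by
      unfold rn
      have : (1 / 2 : ℝ) ^ ((R + 1) ^ 2) ≤ (1 / 2) ^ (R ^ 2 + R) :=
        pow_le_pow_of_le_one (by norm_num) (by norm_num) (by nlinarith)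
      linarith
    linarith

lemma rn_summable : Summable rn := by
  refine summable_of_sum_range_le (c := 1) rn_nonneg fun n => ?_
  have := rn_sum 0 n (Nat.zero_le n)
  have h2 : (0 : ℝ) ≤ (1 / 2) ^ (n ^ 2) := by positivity
  have h3 : (1 / 2 : ℝ) ^ (0 ^ 2) = 1 := by norm_num
  rw [h3, range_zero, sum_empty] at this
  linarith

/-- the number `0.01 0011 000111 ⋯` -/
noncomputable def xrun : ℝ := ∑' r : ℕ, rn r

lemma xrun_low (r : ℕ) : ∑ i ∈ range r, rn i ≤ xrun :=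
  rn_summable.sum_le_tsum _ fun i _ => rn_nonneg i

lemma xrun_up (r : ℕ) : xrun ≤ ∑ i ∈ range r, rn i + (1 / 2) ^ (r ^ 2) := by
  refine rn_summable.tsum_le_of_sum_range_le fun R => ?_
  rcases le_total r R with h | h
  · have h1 := rn_sum r R h
    have h2 : (0 : ℝ) ≤ (1 / 2) ^ (R ^ 2) := by positivity
    linarith
  · have h1 : ∑ i ∈ range R, rn i ≤ ∑ i ∈ range r, rn i :=
      sum_le_sum_of_subset_of_nonneg (range_subset_range.2 h) fun i _ _ => rn_nonneg i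
    have h2 : (0 : ℝ) ≤ (1 / 2) ^ (r ^ 2) := by positivity
    linarith

lemma half_pow_mul (n i : ℕ) (h : i ≤ n) : (1 / 2 : ℝ) ^ i * 2 ^ n = ((2 ^ (n - i) : ℤ) : ℝ) := by
  have : (2 : ℝ) ^ n = 2 ^ i * 2 ^ (n - i) := by rw [← pow_add]; congr 1; omega
  rw [this, ← mul_assoc, ← mul_pow]
  norm_num

lemma int_part (n r : ℕ) (h : ∀ i, i < r → i ^ 2 + i ≤ n) :
    ∃ z : ℤ, (∑ i ∈ range r, rn i) * 2 ^ n = z := by
  refine ⟨∑ i ∈ range r, ((2 ^ (n - i ^ 2) : ℤ) - (2 ^ (n - (i ^ 2 + i)) : ℤ)), ?_⟩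
  rw [sum_mul]
  push_cast
  refine sum_congr rfl fun i hi => ?_
  have h1 := h i (mem_range.1 hi)
  unfold rn
  rw [sub_mul, half_pow_mul n _ (by omega), half_pow_mul n _ h1]
  push_cast
  rfl

/-- the zeros: `x 2 ^ n` is a little larger than an integer -/
lemma run_zero (r n : ℕ) (h1 : r ^ 2 + r ≤ n) (h2 : n ≤ (r + 1) ^ 2) :
    ∃ z : ℤ, (z : ℝ) ≤ xrun * 2 ^ n ∧ xrun * 2 ^ n ≤ z + (1 / 2) ^ ((r + 1) ^ 2 - n) := by
  obtain ⟨z, hz⟩ := int_part n (r + 1) (fun i hi => by nlinarith)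
  refine ⟨z, ?_, ?_⟩
  · rw [← hz]
    exact mul_le_mul_of_nonneg_right (xrun_low _) (by positivity)
  · rw [← hz]
    have h3 := mul_le_mul_of_nonneg_right (xrun_up (r + 1)) (show (0 : ℝ) ≤ 2 ^ n by positivity)
    refine h3.trans (le_of_eq ?_)
    rw [add_mul]
    congr 1
    have e : (r + 1) ^ 2 = ((r + 1) ^ 2 - n) + n := by omega
    nth_rewrite 1 [e]
    rw [pow_add, mul_assoc, ← mul_pow]
    norm_num

/-- the ones: `x 2 ^ n` is a little smaller than an integer -/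
lemma run_one (r n : ℕ) (h1 : r ^ 2 ≤ n) (h2 : n < r ^ 2 + r) :
    ∃ z : ℤ, (z : ℝ) - (1 / 2) ^ (r ^ 2 + r - n) ≤ xrun * 2 ^ n ∧ xrun * 2 ^ n < z := by
  obtain ⟨z, hz⟩ := int_part n r (fun i hi => by nlinarith)
  have e : r ^ 2 + r = (r ^ 2 + r - n) + n := by omega
  have hrn : rn r * 2 ^ n = ((2 ^ (n - r ^ 2) : ℤ) : ℝ) - (1 / 2) ^ (r ^ 2 + r - n) := by
    unfold rn
    rw [sub_mul, half_pow_mul n _ h1]
    congr 1
    nth_rewrite 1 [e]
    rw [pow_add, mul_assoc, ← mul_pow]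
    norm_num
  refine ⟨z + 2 ^ (n - r ^ 2), ?_, ?_⟩
  · have h3 := mul_le_mul_of_nonneg_right (xrun_low (r + 1)) (show (0 : ℝ) ≤ 2 ^ n by positivity)
    rw [sum_range_succ, add_mul, hz, hrn] at h3
    push_cast at h3 ⊢
    linarith
  · have h3 := mul_le_mul_of_nonneg_right (xrun_up (r + 1)) (show (0 : ℝ) ≤ 2 ^ n by positivity)
    rw [sum_range_succ, add_mul, add_mul, hz, hrn] at h3
    have h4 : (1 / 2 : ℝ) ^ ((r + 1) ^ 2) * 2 ^ n < (1 / 2) ^ (r ^ 2 + r - n) := by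
      have e2 : (r + 1) ^ 2 = (r ^ 2 + r - n) + n + (r + 1) := by
        have : (r + 1) ^ 2 = r ^ 2 + r + (r + 1) := by ring
        omega
      rw [e2, pow_add, pow_add]
      have h5 : (1 / 2 : ℝ) ^ n * 2 ^ n = 1 := by rw [← mul_pow]; norm_num
      have h6 : (1 / 2 : ℝ) ^ (r ^ 2 + r - n) * (1 / 2) ^ n * (1 / 2) ^ (r + 1) * 2 ^ n =
          (1 / 2 : ℝ) ^ (r ^ 2 + r - n) * (1 / 2) ^ (r + 1) * ((1 / 2) ^ n * 2 ^ n) := by ring
      rw [h6, h5, mul_one]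
      have h7 : (1 / 2 : ℝ) ^ (r + 1) < 1 := pow_lt_one₀ (by norm_num) (by norm_num) (by omega)
      have h8 : (0 : ℝ) < (1 / 2) ^ (r ^ 2 + r - n) := by positivity
      nlinarith
    push_cast at h3 ⊢
    linarith

lemma half_pow_le (m j k : ℕ) (hm : 2 * k ≤ 2 ^ m) (h : m < j) :
    (k : ℝ) * (1 / 2) ^ j ≤ 1 / 4 := by
  have h1 : (1 / 2 : ℝ) ^ j ≤ (1 / 2) ^ (m + 1) :=
    pow_le_pow_of_le_one (by norm_num) (by norm_num) (by omega)
  have h2 : (2 : ℝ) * k ≤ 2 ^ m := by exact_mod_cast hm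
  have h3 : (1 / 2 : ℝ) ^ (m + 1) * 2 ^ m = 1 / 2 := by
    rw [pow_succ, mul_comm ((1 / 2 : ℝ) ^ m), mul_assoc, ← mul_pow]
    norm_num
  have h4 : (0 : ℝ) < (1 / 2) ^ (m + 1) := by positivity
  calc (k : ℝ) * (1 / 2) ^ j ≤ k * (1 / 2) ^ (m + 1) :=
        mul_le_mul_of_nonneg_left h1 (Nat.cast_nonneg k)
    _ ≤ 1 / 4 := by nlinarith

lemma fract_zero_run (k m r n : ℕ) (hm : 2 * k ≤ 2 ^ m) (h1 : r ^ 2 + r ≤ n)
    (h2 : n + m < (r + 1) ^ 2) : Int.fract (((k : ℝ) * xrun) * ((2 : ℕ) : ℝ) ^ n) ≤ 1 / 4 := by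
  obtain ⟨z, hz1, hz2⟩ := run_zero r n h1 (by omega)
  have h3 := half_pow_le m ((r + 1) ^ 2 - n) k hm (by omega)
  have hk : (0 : ℝ) ≤ k := Nat.cast_nonneg k
  have e : ((k : ℝ) * xrun) * ((2 : ℕ) : ℝ) ^ n =
      (k * (xrun * 2 ^ n - z)) + ((k * z : ℤ) : ℝ) := by push_cast; ring
  rw [e, Int.fract_add_intCast]
  have h4 : 0 ≤ (k : ℝ) * (xrun * 2 ^ n - z) := mul_nonneg hk (by linarith)
  have h5 : (k : ℝ) * (xrun * 2 ^ n - z) ≤ 1 / 4 :=
    (mul_le_mul_of_nonneg_left (by linarith) hk).trans h3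
  rw [Int.fract_eq_self.2 ⟨h4, by linarith⟩]
  exact h5

lemma fract_one_run (k m r n : ℕ) (hk1 : 1 ≤ k) (hm : 2 * k ≤ 2 ^ m) (h1 : r ^ 2 ≤ n)
    (h2 : n + m < r ^ 2 + r) : 3 / 4 ≤ Int.fract (((k : ℝ) * xrun) * ((2 : ℕ) : ℝ) ^ n) := by
  obtain ⟨z, hz1, hz2⟩ := run_one r n h1 (by omega)
  have h3 := half_pow_le m (r ^ 2 + r - n) k hm (by omega)
  have hk : (0 : ℝ) < k := by exact_mod_cast hk1
  have e : ((k : ℝ) * xrun) * ((2 : ℕ) : ℝ) ^ n =
      (1 - k * (z - xrun * 2 ^ n)) + ((k * z - 1 : ℤ) : ℝ) := by push_cast; ring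
  rw [e, Int.fract_add_intCast]
  have h4 : 0 < (k : ℝ) * (z - xrun * 2 ^ n) := mul_pos hk (by linarith)
  have h5 : (k : ℝ) * (z - xrun * 2 ^ n) ≤ 1 / 4 :=
    (mul_le_mul_of_nonneg_left (by linarith) hk.le).trans h3
  rw [Int.fract_eq_self.2 ⟨by linarith, by linarith⟩]
  linarith

/-- sums of bounded terms over blocks -/
lemma block_sums (s : ℕ → ℝ) (c : ℝ) (hs : ∀ n, |s n| ≤ 1)
    (hc : ∀ r, |∑ n ∈ Ico (r ^ 2) ((r + 1) ^ 2), s n| ≤ c) (N : ℕ) :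
    |∑ n ∈ range N, s n| ≤ (c + 2) * √N := by
  have hc0 : 0 ≤ c := (abs_nonneg _).trans (hc 0)
  have h1 : ∀ R : ℕ, |∑ n ∈ range (R ^ 2), s n| ≤ c * R := by
    intro R
    induction R with
    | zero => simp
    | succ R ih =>
      rw [range_eq_Ico, ← sum_Ico_consecutive _ (Nat.zero_le (R ^ 2))
        (Nat.pow_le_pow_left (Nat.le_succ R) 2), ← range_eq_Ico]
      refine (abs_add_le _ _).trans ?_
      push_cast
      linarith [hc R]
  set R := Nat.sqrt N with hR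
  have hR1 : R ^ 2 ≤ N := by rw [pow_two]; exact Nat.sqrt_le N
  have hR2 : N < (R + 1) ^ 2 := by rw [pow_two]; exact Nat.lt_succ_sqrt N
  have hR3 : (R : ℝ) ≤ √N := by
    apply Real.le_sqrt_of_sq_le
    exact_mod_cast hR1
  rw [range_eq_Ico, ← sum_Ico_consecutive _ (Nat.zero_le (R ^ 2)) hR1, ← range_eq_Ico]
  refine (abs_add_le _ _).trans ?_
  have h2 : |∑ n ∈ Ico (R ^ 2) N, s n| ≤ 2 * R := by
    refine (abs_sum_le_sum_abs _ _).trans ?_
    calc ∑ n ∈ Ico (R ^ 2) N, |s n| ≤ ∑ n ∈ Ico (R ^ 2) N, (1 : ℝ) := sum_le_sum fun n _ => hs n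
      _ = ((N - R ^ 2 : ℕ) : ℝ) := by rw [sum_const, Nat.card_Ico, nsmul_eq_mul, mul_one]
      _ ≤ ((2 * R : ℕ) : ℝ) := by
        have : N - R ^ 2 ≤ 2 * R := by
          have : (R + 1) ^ 2 = R ^ 2 + 2 * R + 1 := by ring
          omega
        exact_mod_cast this
      _ = 2 * R := by push_cast; ring
  have h3 := h1 R
  nlinarith

/-- one block, when the terms are known outside of the ends of the two runs -/
lemma block_one (s : ℕ → ℝ) (u v : ℝ) (m : ℕ) (hs : ∀ n, |s n| ≤ 1) (hu : |u| ≤ 1) (huv : u + v = 0)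
    (h0 : ∀ r n, r ^ 2 ≤ n → n + m < r ^ 2 + r → s n = u)
    (h1 : ∀ r n, r ^ 2 + r ≤ n → n + m < (r + 1) ^ 2 → s n = v) (r : ℕ) :
    |∑ n ∈ Ico (r ^ 2) ((r + 1) ^ 2), s n| ≤ 2 * m + 1 := by
  have htriv : ∀ a c : ℕ, |∑ n ∈ Ico a c, s n| ≤ ((c - a : ℕ) : ℝ) := by
    intro a c
    refine (abs_sum_le_sum_abs _ _).trans ?_
    calc ∑ n ∈ Ico a c, |s n| ≤ ∑ n ∈ Ico a c, (1 : ℝ) := sum_le_sum fun n _ => hs n
      _ = ((c - a : ℕ) : ℝ) := by rw [sum_const, Nat.card_Ico, nsmul_eq_mul, mul_one]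
  have e : (r + 1) ^ 2 = r ^ 2 + r + (r + 1) := by ring
  rcases lt_or_ge r m with h | h
  · refine (htriv _ _).trans ?_
    have : (r + 1) ^ 2 - r ^ 2 ≤ 2 * m + 1 := by omega
    exact_mod_cast this
  · have q1 := sum_Ico_consecutive s (show r ^ 2 ≤ r ^ 2 + (r - m) by omega)
      (show r ^ 2 + (r - m) ≤ (r + 1) ^ 2 by omega)
    have q2 := sum_Ico_consecutive s (show r ^ 2 + (r - m) ≤ r ^ 2 + r by omega)
      (show r ^ 2 + r ≤ (r + 1) ^ 2 by omega)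
    have q3 := sum_Ico_consecutive s (show r ^ 2 + r ≤ r ^ 2 + r + (r + 1 - m) by omega)
      (show r ^ 2 + r + (r + 1 - m) ≤ (r + 1) ^ 2 by omega)
    have a1 : ∑ n ∈ Ico (r ^ 2) (r ^ 2 + (r - m)), s n = ((r : ℝ) - m) * u := by
      rw [sum_congr rfl (fun n hn => h0 r n (mem_Ico.1 hn).1 (by have := (mem_Ico.1 hn).2; omega)),
        sum_const, Nat.card_Ico, nsmul_eq_mul]
      congr 1
      have : r ^ 2 + (r - m) - r ^ 2 = r - m := by omega
      rw [this, Nat.cast_sub h]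
    have a2 : ∑ n ∈ Ico (r ^ 2 + r) (r ^ 2 + r + (r + 1 - m)), s n = ((r : ℝ) + 1 - m) * v := by
      rw [sum_congr rfl (fun n hn => h1 r n (mem_Ico.1 hn).1 (by have := (mem_Ico.1 hn).2; omega)),
        sum_const, Nat.card_Ico, nsmul_eq_mul]
      congr 1
      have : r ^ 2 + r + (r + 1 - m) - (r ^ 2 + r) = r + 1 - m := by omega
      rw [this, Nat.cast_sub (by omega)]
      push_cast
      ring
    have b1 := htriv (r ^ 2 + (r - m)) (r ^ 2 + r)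
    have b2 := htriv (r ^ 2 + r + (r + 1 - m)) ((r + 1) ^ 2)
    have c1 : ((r ^ 2 + r - (r ^ 2 + (r - m)) : ℕ) : ℝ) = m := by
      have : r ^ 2 + r - (r ^ 2 + (r - m)) = m := by omega
      rw [this]
    have c2 : (((r + 1) ^ 2 - (r ^ 2 + r + (r + 1 - m)) : ℕ) : ℝ) = m := by
      have : (r + 1) ^ 2 - (r ^ 2 + r + (r + 1 - m)) = m := by omega
      rw [this]
    rw [c1] at b1
    rw [c2] at b2
    have hv : v = -u := by linarith
    rw [← q1, ← q2, ← q3, a1, a2, hv]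
    have : ((r : ℝ) - m) * u + (∑ n ∈ Ico (r ^ 2 + (r - m)) (r ^ 2 + r), s n +
        (((r : ℝ) + 1 - m) * -u + ∑ n ∈ Ico (r ^ 2 + r + (r + 1 - m)) ((r + 1) ^ 2), s n)) =
        -u + (∑ n ∈ Ico (r ^ 2 + (r - m)) (r ^ 2 + r), s n +
          ∑ n ∈ Ico (r ^ 2 + r + (r + 1 - m)) ((r + 1) ^ 2), s n) := by ring
    rw [this]
    refine (abs_add_le _ _).trans ?_
    rw [abs_neg]
    have := abs_add_le (∑ n ∈ Ico (r ^ 2 + (r - m)) (r ^ 2 + r), s n)
      (∑ n ∈ Ico (r ^ 2 + r + (r + 1 - m)) ((r + 1) ^ 2), s n)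
    linarith

lemma tendsto_sqrt_div (c : ℝ) : Tendsto (fun N : ℕ => c * √(N : ℝ) / N) atTop (𝓝 0) := by
  have h1 : (fun N : ℕ => c * √(N : ℝ) / N) = fun N : ℕ => c * (√(N : ℝ))⁻¹ := by
    funext N
    rw [mul_div_assoc, Real.sqrt_div_self]
  rw [h1]
  have h2 : Tendsto (fun N : ℕ => (√(N : ℝ))⁻¹) atTop (𝓝 0) :=
    tendsto_inv_atTop_zero.comp (Real.tendsto_sqrt_atTop.comp tendsto_natCast_atTop_atTop)
  simpa using h2.const_mul c

/-- all the multiples of `xrun` are simply normal in base two -/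
theorem xrun_simple (k : ℕ) (hk : 1 ≤ k) :
    Tendsto (fun N : ℕ => (vis 2 (k * xrun) 0 (1 / 2) N : ℝ) / N) atTop (𝓝 (1 / 2)) ∧
    Tendsto (fun N : ℕ => (vis 2 (k * xrun) (1 / 2) 1 N : ℝ) / N) atTop (𝓝 (1 / 2)) := by
  obtain ⟨m, hm⟩ : ∃ m : ℕ, 2 * k ≤ 2 ^ m := by
    obtain ⟨m, hm⟩ := pow_unbounded_of_one_lt (2 * k) (show 1 < 2 by norm_num)
    exact ⟨m, hm.le⟩
  set s : ℕ → ℝ := fun n => if 0 ≤ Int.fract (((k : ℝ) * xrun) * ((2 : ℕ) : ℝ) ^ n) ∧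
    Int.fract (((k : ℝ) * xrun) * ((2 : ℕ) : ℝ) ^ n) < 1 / 2 then 1 else -1 with hs
  have hs1 : ∀ n, |s n| ≤ 1 := by
    intro n
    simp only [hs]
    split_ifs <;> norm_num
  have hblock := block_one s (-1) 1 m hs1 (by norm_num) (by norm_num)
    (fun r n h1 h2 => by
      simp only [hs]
      rw [if_neg]
      rintro ⟨_, h3⟩
      have := fract_one_run k m r n hk hm h1 h2
      linarith)
    (fun r n h1 h2 => by
      simp only [hs]
      rw [if_pos]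
      have := fract_zero_run k m r n hm h1 h2
      exact ⟨Int.fract_nonneg _, by linarith⟩)
  have hsum := block_sums s (2 * m + 1) hs1 hblock
  have hvis : ∀ N : ℕ, (vis 2 (k * xrun) 0 (1 / 2) N : ℝ) = N / 2 + (∑ n ∈ range N, s n) / 2 := by
    intro N
    rw [vis_cast]
    have h1 : (N : ℝ) / 2 = ∑ n ∈ range N, (1 / 2 : ℝ) := by
      rw [sum_const, card_range, nsmul_eq_mul]; ring
    rw [h1, sum_div, ← sum_add_distrib]
    refine sum_congr rfl fun n _ => ?_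
    simp only [hs]
    split_ifs <;> norm_num
  have hvis2 : ∀ N : ℕ, (vis 2 (k * xrun) (1 / 2) 1 N : ℝ) = N / 2 - (∑ n ∈ range N, s n) / 2 := by
    intro N
    have h1 := vis_add 2 (k * xrun) 0 (1 / 2) 1 N (by norm_num) (by norm_num)
    rw [vis_total] at h1
    have h2 : (vis 2 (k * xrun) 0 (1 / 2) N : ℝ) + vis 2 (k * xrun) (1 / 2) 1 N = N := by
      exact_mod_cast h1
    linarith [hvis N]
  have hlim : Tendsto (fun N : ℕ => (∑ n ∈ range N, s n) / N) atTop (𝓝 0) := by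
    refine squeeze_zero_norm (fun N => ?_) (tendsto_sqrt_div (2 * m + 1 + 2))
    rw [Real.norm_eq_abs, abs_div, Nat.abs_cast]
    exact div_le_div_of_nonneg_right (hsum N) (Nat.cast_nonneg N)
  constructor
  · have h1 : Tendsto (fun N : ℕ => 1 / 2 + (∑ n ∈ range N, s n) / N / 2) atTop (𝓝 (1 / 2 + 0 / 2)) :=
      (hlim.div_const 2).const_add _
    rw [zero_div, add_zero] at h1
    refine h1.congr' ?_
    filter_upwards [eventually_gt_atTop 0] with N hN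
    have hN0 : (N : ℝ) ≠ 0 := by positivity
    rw [hvis]
    field_simp
  · have h1 : Tendsto (fun N : ℕ => 1 / 2 - (∑ n ∈ range N, s n) / N / 2) atTop (𝓝 (1 / 2 - 0 / 2)) :=
      (hlim.div_const 2).const_sub _
    rw [zero_div, sub_zero] at h1
    refine h1.congr' ?_
    filter_upwards [eventually_gt_atTop 0] with N hN
    have hN0 : (N : ℝ) ≠ 0 := by positivity
    rw [hvis2]
    field_simp

/-- `xrun` is far from normal in base two -/
theorem xrun_not_ud :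
    Tendsto (fun N : ℕ => (vis 2 xrun (1 / 4) (3 / 4) N : ℝ) / N) atTop (𝓝 0) := by
  set s : ℕ → ℝ := fun n => if 1 / 4 ≤ Int.fract (xrun * ((2 : ℕ) : ℝ) ^ n) ∧
    Int.fract (xrun * ((2 : ℕ) : ℝ) ^ n) < 3 / 4 then 1 else 0 with hs
  have hs1 : ∀ n, |s n| ≤ 1 := by
    intro n
    simp only [hs]
    split_ifs <;> norm_num
  have h8 : ∀ j : ℕ, 2 < j → (1 / 2 : ℝ) ^ j ≤ 1 / 8 := by
    intro j hj
    refine (pow_le_pow_of_le_one (by norm_num) (by norm_num) (show 3 ≤ j by omega)).trans ?_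
    norm_num
  have hblock := block_one s 0 0 2 hs1 (by norm_num) (by norm_num)
    (fun r n h1 h2 => by
      simp only [hs]
      rw [if_neg]
      rintro ⟨_, h3⟩
      obtain ⟨z, hz1, hz2⟩ := run_one r n h1 (by omega)
      have h4 := h8 (r ^ 2 + r - n) (by omega)
      have h5 : Int.fract (xrun * ((2 : ℕ) : ℝ) ^ n) = xrun * 2 ^ n - z + 1 := by
        have e : xrun * ((2 : ℕ) : ℝ) ^ n = (xrun * 2 ^ n - z + 1) + ((z - 1 : ℤ) : ℝ) := by
          push_cast; ring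
        rw [e, Int.fract_add_intCast, Int.fract_eq_self]
        constructor <;> linarith
      rw [h5] at h3
      linarith)
    (fun r n h1 h2 => by
      simp only [hs]
      rw [if_neg]
      rintro ⟨h3, _⟩
      obtain ⟨z, hz1, hz2⟩ := run_zero r n h1 (by omega)
      have h4 := h8 ((r + 1) ^ 2 - n) (by omega)
      have h5 : Int.fract (xrun * ((2 : ℕ) : ℝ) ^ n) = xrun * 2 ^ n - z := by
        have e : xrun * ((2 : ℕ) : ℝ) ^ n = (xrun * 2 ^ n - z) + ((z : ℤ) : ℝ) := by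
          push_cast; ring
        rw [e, Int.fract_add_intCast, Int.fract_eq_self]
        constructor <;> linarith
      rw [h5] at h3
      linarith)
  have hsum := block_sums s (2 * (2 : ℕ) + 1) hs1 hblock
  refine squeeze_zero_norm (fun N => ?_) (tendsto_sqrt_div (2 * (2 : ℕ) + 1 + 2))
  rw [Real.norm_eq_abs, abs_div, Nat.abs_cast, Nat.abs_cast]
  refine div_le_div_of_nonneg_right ?_ (Nat.cast_nonneg N)
  rw [vis_cast]
  exact (le_abs_self _).trans (hsum N)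

end Pool.Agent.U798.MN
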